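import Pool.Agent.Y516.OJ.Stm

set_option autoImplicit false

/-!
# Reachability oracles with one probe to a joint cell: definitions
-/

namespace Pool.Agent.Y516.OJ

open Finset

/-- a directed graph with the vertices `0, …, n - 1`, given by its set of arcs -/
abbrev Dig (n : ℕ) : Type := Finset (Fin n × Fin n)

/-- there is a directed path from `x` to `y` -/
def Reach {n : ℕ} (E : Dig n) (x y : Fin n) : Prop :=
  Relation.ReflTransGen (fun a b => (a, b) ∈ E) x y

/-- the arcs with a tail less than `c` -/
def lowE {n : ℕ} (c : ℕ) (E : Dig n) : Dig n := E.filter fun e => (e.1 : ℕ) < c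

/-- the arcs with a tail at least `c` -/
def highE {n : ℕ} (c : ℕ) (E : Dig n) : Dig n := E.filter fun e => ¬ (e.1 : ℕ) < c

/-- A (deterministic) reachability oracle for directed graphs with `n` vertices, with `s` cells of
`w` bits. Every cell may be an arbitrary function of the graph `E`. On the query `(x, y)` one cell is
read; its number `addr x y E₁` may be an arbitrary function of the query and of the set `E₁` of the
arcs with a tail less than `c`. Then the query is answered by a communication protocol, which may
depend on the query and on the content of this cell, between a player who knows `E₁` and a player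
who knows the other arcs. -/
structure ReachDS (n w s : ℕ) where
  /-- the contents of the cells -/
  cell : Dig n → Fin s → Fin (2 ^ w)
  /-- the cell which is read on a query -/
  addr : Fin n → Fin n → Dig n → Fin s
  /-- the protocol which is used for a query and a content of the cell -/
  query : Fin n → Fin n → Fin (2 ^ w) → Prot (Dig n) (Dig n)

/-- the answer to the query `(x, y)` on the graph `E` -/
def ReachDS.answer {n w s : ℕ} (D : ReachDS n w s) (c : ℕ) (E : Dig n) (x y : Fin n) : Bool :=
  (D.query x y (D.cell E (D.addr x y (lowE c E)))).run (lowE c E) (highE c E)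

/-- The random oracle `D` (which is `D ω` with probability `p ω`) decides, with protocols of at most
`b` bits, for all directed graphs with `n` vertices and at most `n` arcs and all pairs `x`, `y` of
vertices whether there is a path from `x` to `y`, with error probability at most
`1 / (2 * 10 ^ 6)`. -/
def SolvesReach {n w s : ℕ} (b c : ℕ) {Ω : Type} [Fintype Ω] (p : Ω → ℝ)
    (D : Ω → ReachDS n w s) : Prop :=
  (∀ ω, 0 ≤ p ω) ∧ ∑ ω, p ω = 1 ∧ (∀ ω x y v, ((D ω).query x y v).depth ≤ b) ∧
    ∀ E : Dig n, E.card ≤ n → ∀ x y : Fin n,
      1 - 1 / (2 * 10 ^ 6) ≤ ∑ ω, p ω * ind ((D ω).answer c E x y = true ↔ Reach E x y)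

end Pool.Agent.Y516.OJ
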