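import Pool.Agent.Y516.OJ.AdFin
import Pool.Agent.Y516.OJ.ReachDefs

set_option autoImplicit false

/-!
# Reachability oracles with one probe to a joint cell: reduction to disjointness
-/

namespace Pool.Agent.Y516.OJ

open Finset

section

variable {n u k : ℕ} (h : 2 * k + u ≤ n)

include h

/-- the sources -/
def vS (i : Fin k) : Fin n := ⟨i.val, by have := i.2; omega⟩

/-- the elements -/
def vM (e : Fin u) : Fin n := ⟨k + e.val, by have := e.2; omega⟩

/-- the targets -/
def vT (j : Fin k) : Fin n := ⟨k + u + j.val, by have := j.2; omega⟩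

/-- the arcs of the first side -/
def EX (X : Fam u k) : Dig n :=
  ((univ : Finset (Fin u × Fin k)).filter fun q => X q.1 q.2 = true).image
    fun q => (vS h q.2, vM h q.1)

/-- the arcs of the second side -/
def EY (Y : Fam u k) : Dig n :=
  ((univ : Finset (Fin u × Fin k)).filter fun q => Y q.1 q.2 = true).image
    fun q => (vM h q.1, vT h q.2)

theorem mem_EX {X : Fam u k} {a : Fin n × Fin n} :
    a ∈ EX h X ↔ ∃ (i : Fin k) (e : Fin u), X e i = true ∧ a = (vS h i, vM h e) := by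
  unfold EX
  rw [Finset.mem_image]
  constructor
  · rintro ⟨⟨e, i⟩, h1, rfl⟩
    rw [Finset.mem_filter] at h1
    exact ⟨i, e, h1.2, rfl⟩
  · rintro ⟨i, e, h1, rfl⟩
    exact ⟨(e, i), by rw [Finset.mem_filter]; exact ⟨Finset.mem_univ _, h1⟩, rfl⟩

theorem mem_EY {Y : Fam u k} {a : Fin n × Fin n} :
    a ∈ EY h Y ↔ ∃ (j : Fin k) (e : Fin u), Y e j = true ∧ a = (vM h e, vT h j) := by
  unfold EY
  rw [Finset.mem_image]
  constructor
  · rintro ⟨⟨e, i⟩, h1, rfl⟩
    rw [Finset.mem_filter] at h1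
    exact ⟨i, e, h1.2, rfl⟩
  · rintro ⟨i, e, h1, rfl⟩
    exact ⟨(e, i), by rw [Finset.mem_filter]; exact ⟨Finset.mem_univ _, h1⟩, rfl⟩

theorem low_eq (X Y : Fam u k) : lowE k (EX h X ∪ EY h Y) = EX h X := by
  unfold lowE
  ext a
  rw [Finset.mem_filter, Finset.mem_union]
  constructor
  · rintro ⟨h1 | h1, h2⟩
    · exact h1
    · exfalso
      obtain ⟨j, e, _, rfl⟩ := (mem_EY h).1 h1
      simp only [vM] at h2
      omega
  · intro h1
    refine ⟨Or.inl h1, ?_⟩
    obtain ⟨i, e, _, rfl⟩ := (mem_EX h).1 h1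
    exact i.2

theorem high_eq (X Y : Fam u k) : highE k (EX h X ∪ EY h Y) = EY h Y := by
  unfold highE
  ext a
  rw [Finset.mem_filter, Finset.mem_union]
  constructor
  · rintro ⟨h1 | h1, h2⟩
    · exfalso
      obtain ⟨i, e, _, rfl⟩ := (mem_EX h).1 h1
      exact h2 i.2
    · exact h1
  · intro h1
    refine ⟨Or.inr h1, ?_⟩
    obtain ⟨j, e, _, rfl⟩ := (mem_EY h).1 h1
    simp only [vM]
    omega

theorem card_E (X Y : Fam u k) : (EX h X ∪ EY h Y).card ≤ tot X + tot Y := by
  refine (Finset.card_union_le _ _).trans (Nat.add_le_add ?_ ?_)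
  · rw [← tot_eq]
    exact Finset.card_image_le
  · rw [← tot_eq]
    exact Finset.card_image_le

theorem reach_iff (X Y : Fam u k) (i j : Fin k) :
    Reach (EX h X ∪ EY h Y) (vS h i) (vT h j) ↔ ¬ Disj X Y (i, j) := by
  constructor
  · intro hr
    have key : ∀ b : Fin n, Relation.ReflTransGen (fun a b => (a, b) ∈ EX h X ∪ EY h Y)
        (vS h i) b → b = vS h i ∨ (∃ e, X e i = true ∧ b = vM h e) ∨
          ∃ e j', X e i = true ∧ Y e j' = true ∧ b = vT h j' := by
      intro b hb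
      induction hb with
      | refl => exact Or.inl rfl
      | tail _ hstep ih =>
        rename_i b c _
        rcases Finset.mem_union.1 hstep with hc | hc
        · obtain ⟨i', e', hX, he⟩ := (mem_EX h).1 hc
          rw [Prod.mk.injEq] at he
          obtain ⟨e1, e2⟩ := he
          have e1' := congrArg Fin.val e1
          rcases ih with rfl | ⟨e, _, rfl⟩ | ⟨e, j', _, _, rfl⟩
          · simp only [vS] at e1'
            have : i = i' := Fin.ext e1'
            subst this
            exact Or.inr (Or.inl ⟨e', hX, e2⟩)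
          · simp only [vS, vM] at e1'
            have := i'.2
            omega
          · simp only [vS, vT] at e1'
            have := i'.2
            omega
        · obtain ⟨j'', e', hY, he⟩ := (mem_EY h).1 hc
          rw [Prod.mk.injEq] at he
          obtain ⟨e1, e2⟩ := he
          have e1' := congrArg Fin.val e1
          rcases ih with rfl | ⟨e, hXe, rfl⟩ | ⟨e, j', _, _, rfl⟩
          · simp only [vS, vM] at e1'
            have := i.2
            omega
          · simp only [vM] at e1'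
            have : e = e' := Fin.ext (by omega)
            subst this
            exact Or.inr (Or.inr ⟨e, j'', hXe, hY, e2⟩)
          · simp only [vM, vT] at e1'
            have := e'.2
            omega
    intro hD
    rcases key _ hr with h1 | ⟨e, _, h1⟩ | ⟨e, j', hX, hY, h1⟩
    · have h2 := congrArg Fin.val h1
      simp only [vS, vT] at h2
      have := i.2
      omega
    · have h2 := congrArg Fin.val h1
      simp only [vM, vT] at h2
      have := e.2
      omega
    · have h2 := congrArg Fin.val h1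
      simp only [vT] at h2
      have h3 : j = j' := Fin.ext (by omega)
      subst h3
      exact hD e ⟨hX, hY⟩
  · intro hD
    unfold Disj at hD
    push Not at hD
    obtain ⟨e, hX, hY⟩ := hD
    unfold Reach
    refine Relation.ReflTransGen.tail (Relation.ReflTransGen.single
      (Finset.mem_union_left _ ((mem_EX h).2 ⟨i, e, hX, rfl⟩)))
      (Finset.mem_union_right _ ((mem_EY h).2 ⟨j, e, hY, rfl⟩))

end

/-- **Main theorem** for reachability oracles. -/
theorem reach_main (core : CoreStm) (hA : AdStm2) (n w b l : ℕ) (hw : 1 ≤ w) (hb : 1 ≤ b)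
    (hn : 4 * 10 ^ 14 * (b + l) ^ 2 * w ^ 2 ≤ n) :
    ∃ c : ℕ, ∀ (s : ℕ) (Ω : Type) [Fintype Ω] (p : Ω → ℝ) (D : Ω → ReachDS n w s),
      (n ^ 2 ≤ 2 ^ l ∨ ∀ ω x y E E', (D ω).addr x y E = (D ω).addr x y E') →
      SolvesReach b c p D → n ^ 2 ≤ 10 ^ 20 * (b + l) ^ 2 * w ^ 3 * s := by
  obtain ⟨m, hm⟩ : ∃ m, m = 4000 * w := ⟨_, rfl⟩
  obtain ⟨M, hM⟩ : ∃ M, M = 10000 * (b + l) * m := ⟨_, rfl⟩
  have hM1 := M_pos w (b + l) m M hw (by omega) hm hM
  obtain ⟨k, hk0⟩ : ∃ k, k = 2 * n / M := ⟨_, rfl⟩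
  obtain ⟨hkM, hk2, hkn⟩ := k_bounds hM1 hk0
  have hbw : 1 ≤ (b + l) ^ 2 * w ^ 2 := Nat.mul_pos (Nat.pow_pos (by omega)) (Nat.pow_pos hw)
  have hn1 : 1 ≤ n := by
    have h2 : 4 * 10 ^ 14 * (b + l) ^ 2 * w ^ 2 = 4 * 10 ^ 14 * ((b + l) ^ 2 * w ^ 2) := by ring
    omega
  have hM8 : 8 ≤ M := by
    rw [hM, hm]
    have h1 : 1 ≤ (b + l) * w := Nat.mul_pos (by omega) hw
    have h2 : 10000 * (b + l) * (4000 * w) = 4 * 10 ^ 7 * ((b + l) * w) := by ring
    omega
  have hfit : 2 * k + M ^ 2 / 8 ≤ n := by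
    have h1 := M_sq w (b + l) m M hm hM
    have h2 : 2 * (M ^ 2 / 8) ≤ n := by
      rw [h1]
      have h3 : 2 * (2 * 10 ^ 14 * (b + l) ^ 2 * w ^ 2) = 4 * 10 ^ 14 * (b + l) ^ 2 * w ^ 2 := by
        ring
      omega
    have h4 : k * 8 ≤ k * M := Nat.mul_le_mul_left _ hM8
    omega
  refine ⟨k, ?_⟩
  intro s Ω _ p D hl hsol
  obtain ⟨hp, hp1, hd, hgood⟩ := hsol
  have hs : 1 ≤ s := by
    by_contra hs
    have hs0 : s = 0 := by omega
    subst hs0
    have : IsEmpty Ω := ⟨fun ω => ((D ω).addr ⟨0, hn1⟩ ⟨0, hn1⟩ ∅).elim0⟩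
    rw [Finset.univ_eq_empty, Finset.sum_empty] at hp1
    exact zero_ne_one hp1
  refine numer4 w (b + l) m M k s n hw hm hM hk2 ?_ hs
  refine master3 core hA w b l m M k s n hw hb hm hM hkM Ω p hp hp1
    (fun ω X Y c => (D ω).cell (EX hfit X ∪ EY hfit Y) c)
    (fun ω d X => (D ω).addr (vS hfit d.1) (vT hfit d.2) (EX hfit X))
    (fun ω d v => ((D ω).query (vS hfit d.1) (vT hfit d.2) v).comap (EX hfit) (EY hfit))
    ?_ (fun ω d v => by rw [Prot.depth_comap]; exact hd _ _ _ _) ?_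
  · rcases hl with hl | hl
    · exact Or.inl ((Nat.pow_le_pow_left hkn 2).trans hl)
    · exact Or.inr fun ω d X X' => hl ω _ _ _ _
  intro X Y hXY d
  refine (hgood (EX hfit X ∪ EY hfit Y) ((card_E hfit X Y).trans hXY) (vS hfit d.1)
    (vT hfit d.2)).trans (le_of_eq ?_)
  refine Finset.sum_congr rfl fun ω _ => ?_
  rw [reach_iff hfit X Y d.1 d.2, Prot.run_comap]
  unfold ReachDS.answer
  rw [low_eq, high_eq]

end Pool.Agent.Y516.OJ
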