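import Mathlib

set_option autoImplicit false

/-!
# Disjoint monochromatic sets of a given size
-/

namespace Pool.Agent.Y516.OJ

open Finset

theorem chunk {k s m : ℕ} (hm : 1 ≤ m) (κ : Fin k → Fin s) :
    ∃ C : Finset (Finset (Fin k)), (∀ I ∈ C, I.card = m ∧ ∀ i ∈ I, ∀ i' ∈ I, κ i = κ i') ∧
      (∀ I ∈ C, ∀ I' ∈ C, I ≠ I' → Disjoint I I') ∧ k ≤ m * C.card + s * m := by
  classical
  let S : Finset (Finset (Finset (Fin k))) := univ.filter fun C =>
    (∀ I ∈ C, I.card = m ∧ ∀ i ∈ I, ∀ i' ∈ I, κ i = κ i') ∧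
      (∀ I ∈ C, ∀ I' ∈ C, I ≠ I' → Disjoint I I')
  have hne : S.Nonempty := ⟨∅, by simp [S]⟩
  obtain ⟨C, hC, hmax⟩ := S.exists_max_image Finset.card hne
  have hC' := (mem_filter.1 hC).2
  obtain ⟨h1, h2⟩ := hC'
  refine ⟨C, h1, h2, ?_⟩
  let U : Finset (Fin k) := univ.filter fun i => ∀ I ∈ C, i ∉ I
  have hU : U.card ≤ s * m := by
    have h3 : U.card = ∑ c : Fin s, (U.filter fun i => κ i = c).card :=
      card_eq_sum_card_fiberwise (fun i _ => mem_univ _)
    rw [h3]
    have h4 : ∀ c : Fin s, (U.filter fun i => κ i = c).card ≤ m := by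
      intro c
      by_contra hc
      push Not at hc
      obtain ⟨I, hI, hIc⟩ := exists_subset_card_eq hc.le
      have hIU : ∀ i ∈ I, ∀ I' ∈ C, i ∉ I' := fun i hi I' hI' =>
        (mem_filter.1 (mem_filter.1 (hI hi)).1).2 I' hI'
      have hnot : I ∉ C := by
        intro h
        have hne' : I.Nonempty := card_pos.1 (by omega)
        obtain ⟨i, hi⟩ := hne'
        exact hIU i hi I h hi
      have hin : insert I C ∈ S := by
        refine mem_filter.2 ⟨mem_univ _, ?_, ?_⟩
        · intro I' hI'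
          rcases mem_insert.1 hI' with rfl | hI'
          · refine ⟨hIc, fun i hi i' hi' => ?_⟩
            rw [(mem_filter.1 (hI hi)).2, (mem_filter.1 (hI hi')).2]
          · exact h1 I' hI'
        · intro I₁ hI₁ I₂ hI₂ hne₁
          rcases mem_insert.1 hI₁ with e1 | e1
          · rcases mem_insert.1 hI₂ with e2 | e2
            · exact absurd (e1.trans e2.symm) hne₁
            · rw [e1]
              exact disjoint_left.2 fun i hi => hIU i hi I₂ e2
          · rcases mem_insert.1 hI₂ with e2 | e2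
            · rw [e2]
              exact disjoint_right.2 fun i hi => hIU i hi I₁ e1
            · exact h2 I₁ e1 I₂ e2 hne₁
      have h5 := hmax _ hin
      rw [card_insert_of_notMem hnot] at h5
      omega
    calc ∑ c : Fin s, (U.filter fun i => κ i = c).card ≤ ∑ _c : Fin s, m :=
          sum_le_sum fun c _ => h4 c
      _ = s * m := by simp
  have hcov : (univ : Finset (Fin k)) ⊆ C.biUnion id ∪ U := by
    intro i _
    by_cases hi : ∀ I ∈ C, i ∉ I
    · exact mem_union_right _ (mem_filter.2 ⟨mem_univ _, hi⟩)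
    · push Not at hi
      obtain ⟨I, hI, hiI⟩ := hi
      exact mem_union_left _ (mem_biUnion.2 ⟨I, hI, hiI⟩)
  have h6 := card_le_card hcov
  rw [card_univ, Fintype.card_fin] at h6
  have h7 := card_union_le (C.biUnion id) U
  have h8 : (C.biUnion id).card ≤ C.card * m := card_biUnion_le_card_mul _ _ _ fun I hI =>
    (h1 I hI).1.le
  have h9 : C.card * m = m * C.card := Nat.mul_comm _ _
  omega

/-- The number of the sets is at most `k / m`. -/
theorem chunk_le {k m : ℕ} (C : Finset (Finset (Fin k))) (h1 : ∀ I ∈ C, I.card = m)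
    (h2 : ∀ I ∈ C, ∀ I' ∈ C, I ≠ I' → Disjoint I I') : m * C.card ≤ k := by
  classical
  have h3 : (C.biUnion id).card = ∑ I ∈ C, I.card := card_biUnion fun I hI I' hI' hne =>
    h2 I hI I' hI' hne
  rw [sum_const_nat h1] at h3
  have h4 := card_le_univ (C.biUnion id)
  rw [h3, Fintype.card_fin] at h4
  rw [Nat.mul_comm]
  exact h4

/-- Sums over the sets are at most sums over all elements. -/
theorem chunk_sum {k : ℕ} (C : Finset (Finset (Fin k)))
    (h2 : ∀ I ∈ C, ∀ I' ∈ C, I ≠ I' → Disjoint I I') (f : Fin k → ℝ) (hf : ∀ i, 0 ≤ f i) :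
    ∑ I ∈ C, ∑ i ∈ I, f i ≤ ∑ i, f i := by
  classical
  have h3 : ∑ i ∈ C.biUnion id, f i = ∑ I ∈ C, ∑ i ∈ I, f i :=
    sum_biUnion fun I hI I' hI' hne => h2 I hI I' hI' hne
  rw [← h3]
  exact sum_le_sum_of_subset_of_nonneg (subset_univ _) fun i _ _ => hf i

end Pool.Agent.Y516.OJ
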