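import Pool.Agent.Y516.OJ.Stm

set_option autoImplicit false

/-!
# One joint probe: from the core statement to the data structure problems
-/

namespace Pool.Agent.Y516.OJ

open Finset

theorem ind_nonneg (P : Prop) : 0 ≤ ind P := by unfold ind; split <;> norm_num

theorem ind_add_not (P : Prop) : ind P + ind (¬ P) = 1 := by
  unfold ind
  by_cases h : P <;> simp [h]

namespace Prot

variable {A B A' B' : Type}

theorem run_comap (φ : A' → A) (ψ : B' → B) (p : Prot A B) (x : A') (y : B') :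
    (p.comap φ ψ).run x y = p.run (φ x) (ψ y) := by
  induction p with
  | out a => rfl
  | left f p q ihp ihq => simp only [comap, run, ihp, ihq]
  | right f p q ihp ihq => simp only [comap, run, ihp, ihq]

theorem depth_comap (φ : A' → A) (ψ : B' → B) (p : Prot A B) :
    (p.comap φ ψ).depth = p.depth := by
  induction p with
  | out a => rfl
  | left f p q ihp ihq => simp only [comap, depth, ihp, ihq]
  | right f p q ihp ihq => simp only [comap, depth, ihp, ihq]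

end Prot

theorem sum_wt (α : ℝ) (k : ℕ) : ∑ x : Fin k → Bool, wt α x = 1 := by
  have h := (Finset.prod_univ_sum (fun _ : Fin k => (univ : Finset Bool))
    (fun _ b => if b = true then α else 1 - α)).symm
  rw [Fintype.piFinset_univ] at h
  unfold wt
  rw [h]
  simp

theorem sum_Wt (α : ℝ) (u k : ℕ) : ∑ X : Fam u k, Wt α X = 1 := by
  have h := (Finset.prod_univ_sum (fun _ : Fin u => (univ : Finset (Fin k → Bool)))
    (fun _ x => wt α x)).symm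
  rw [Fintype.piFinset_univ] at h
  unfold Wt
  rw [show (∑ X : Fam u k, ∏ e, wt α (X e)) = _ from h]
  simp [sum_wt]

theorem wt_nonneg {α : ℝ} (h0 : 0 ≤ α) (h1 : α ≤ 1) {k : ℕ} (x : Fin k → Bool) : 0 ≤ wt α x := by
  unfold wt
  apply Finset.prod_nonneg
  intro i _
  split <;> linarith

theorem Wt_nonneg {α : ℝ} (h0 : 0 ≤ α) (h1 : α ≤ 1) {u k : ℕ} (X : Fam u k) : 0 ≤ Wt α X :=
  Finset.prod_nonneg fun _ _ => wt_nonneg h0 h1 _

theorem EE_mono {α : ℝ} (h0 : 0 ≤ α) (h1 : α ≤ 1) {u k : ℕ} {f g : Fam u k → Fam u k → ℝ}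
    (h : ∀ X Y, f X Y ≤ g X Y) : EE α f ≤ EE α g := by
  unfold EE
  refine Finset.sum_le_sum fun X _ => Finset.sum_le_sum fun Y _ => ?_
  exact mul_le_mul_of_nonneg_left (h X Y) (mul_nonneg (Wt_nonneg h0 h1 _) (Wt_nonneg h0 h1 _))

theorem EE_const (α : ℝ) (u k : ℕ) (c : ℝ) : EE α (fun _ _ : Fam u k => c) = c := by
  unfold EE
  simp only [← Finset.sum_mul, ← Finset.mul_sum, sum_Wt]
  ring

theorem EE_sum {ι : Type} (s : Finset ι) (α : ℝ) {u k : ℕ} (f : ι → Fam u k → Fam u k → ℝ) :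
    EE α (fun X Y => ∑ i ∈ s, f i X Y) = ∑ i ∈ s, EE α (f i) := by
  unfold EE
  simp only [Finset.mul_sum]
  have h1 : ∀ X : Fam u k, (∑ Y : Fam u k, ∑ i ∈ s, Wt α X * Wt α Y * f i X Y) =
      ∑ i ∈ s, ∑ Y : Fam u k, Wt α X * Wt α Y * f i X Y := fun X => Finset.sum_comm
  rw [Finset.sum_congr rfl fun X _ => h1 X, Finset.sum_comm]

theorem EE_mul (c α : ℝ) {u k : ℕ} (f : Fam u k → Fam u k → ℝ) :
    EE α (fun X Y => c * f X Y) = c * EE α f := by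
  unfold EE
  rw [Finset.mul_sum]
  refine Finset.sum_congr rfl fun X _ => ?_
  rw [Finset.mul_sum]
  refine Finset.sum_congr rfl fun Y _ => ?_
  ring

/-- **Master theorem**: randomised algorithms with one joint probe and a protocol of depth `b`. -/
theorem master (core : CoreStm) (w b m M k s : ℕ) (hw : 1 ≤ w) (hb : 1 ≤ b) (hm : m = 4000 * w)
    (hM : M = 10000 * b * m) (Ω : Type) [Fintype Ω] (p : Ω → ℝ) (hp : ∀ ω, 0 ≤ p ω)
    (hp1 : ∑ ω, p ω = 1)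
    (J : Ω → Fam (M ^ 2 / 8) k → Fam (M ^ 2 / 8) k → Fin s → Fin (2 ^ w))
    (addr : Ω → Fin k × Fin k → Fin s)
    (query : Ω → Fin k × Fin k → Fin (2 ^ w) → Prot (Fam (M ^ 2 / 8) k) (Fam (M ^ 2 / 8) k))
    (hq : ∀ ω d v, (query ω d v).depth ≤ b)
    (h : ∀ X Y d, 1 - 1 / 10 ^ 6 ≤
      ∑ ω, p ω * ind ((query ω d (J ω X Y (addr ω d))).run X Y = true ↔ ¬ Disj X Y d)) :
    k ^ 2 ≤ 2 * m * s := by
  have hM0 : (1 : ℝ) ≤ (M : ℝ) := by
    have h1 : 1 ≤ M := by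
      rw [hM, hm]
      exact Nat.mul_pos (Nat.mul_pos (by norm_num) hb) (Nat.mul_pos (by norm_num) hw)
    exact_mod_cast h1
  have ha0 : (0 : ℝ) ≤ 1 / (M : ℝ) := by positivity
  have ha1 : 1 / (M : ℝ) ≤ 1 := by
    rw [div_le_one (by linarith)]
    exact hM0
  have hw1 : ∀ X Y d, ∑ ω, p ω * ind (Wrong (J ω) (addr ω) (query ω) X Y d) ≤ 1 / 10 ^ 6 := by
    intro X Y d
    have h1 : ∑ ω, p ω * ind ((query ω d (J ω X Y (addr ω d))).run X Y = true ↔ ¬ Disj X Y d) +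
        ∑ ω, p ω * ind (Wrong (J ω) (addr ω) (query ω) X Y d) = 1 := by
      rw [← Finset.sum_add_distrib, ← hp1]
      refine Finset.sum_congr rfl fun ω _ => ?_
      rw [← mul_add]
      unfold Wrong
      rw [ind_add_not, mul_one]
    have h2 := h X Y d
    linarith
  have havg : ∑ ω, p ω * ∑ d, EE (1 / (M : ℝ)) (fun X Y =>
      ind (Wrong (J ω) (addr ω) (query ω) X Y d)) ≤ (k : ℝ) ^ 2 / 10 ^ 6 := by
    calc ∑ ω, p ω * ∑ d, EE (1 / (M : ℝ)) (fun X Y =>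
          ind (Wrong (J ω) (addr ω) (query ω) X Y d))
        = ∑ ω, ∑ d, EE (1 / (M : ℝ)) (fun X Y =>
          p ω * ind (Wrong (J ω) (addr ω) (query ω) X Y d)) := by
          refine Finset.sum_congr rfl fun ω _ => ?_
          rw [Finset.mul_sum]
          refine Finset.sum_congr rfl fun d _ => ?_
          rw [EE_mul]
      _ = ∑ d, ∑ ω, EE (1 / (M : ℝ)) (fun X Y =>
          p ω * ind (Wrong (J ω) (addr ω) (query ω) X Y d)) := Finset.sum_comm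
      _ = ∑ d : Fin k × Fin k, EE (1 / (M : ℝ)) (fun X Y =>
          ∑ ω, p ω * ind (Wrong (J ω) (addr ω) (query ω) X Y d)) := by
          refine Finset.sum_congr rfl fun d _ => ?_
          rw [EE_sum]
      _ ≤ ∑ d : Fin k × Fin k, EE (u := M ^ 2 / 8) (k := k) (1 / (M : ℝ))
          (fun _ _ => 1 / 10 ^ 6) :=
          Finset.sum_le_sum fun d _ => EE_mono ha0 ha1 fun X Y => hw1 X Y d
      _ = (k : ℝ) ^ 2 / 10 ^ 6 := by
          simp only [EE_const]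
          simp
          ring
  obtain ⟨ω, hω⟩ : ∃ ω, ∑ d, EE (1 / (M : ℝ)) (fun X Y =>
      ind (Wrong (J ω) (addr ω) (query ω) X Y d)) ≤ (k : ℝ) ^ 2 / 10 ^ 6 := by
    by_contra hne
    push Not at hne
    have h1 : ∀ ω, p ω * ((k : ℝ) ^ 2 / 10 ^ 6) ≤ p ω * ∑ d, EE (1 / (M : ℝ)) (fun X Y =>
        ind (Wrong (J ω) (addr ω) (query ω) X Y d)) := fun ω =>
      mul_le_mul_of_nonneg_left (hne ω).le (hp ω)
    obtain ⟨ω₀, _, hω₀⟩ : ∃ ω ∈ (univ : Finset Ω), 0 < p ω := by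
      by_contra hno
      push Not at hno
      have : ∑ ω, p ω ≤ 0 := Finset.sum_nonpos hno
      linarith
    have h2 : ∑ ω, p ω * ((k : ℝ) ^ 2 / 10 ^ 6) < ∑ ω, p ω * ∑ d, EE (1 / (M : ℝ)) (fun X Y =>
        ind (Wrong (J ω) (addr ω) (query ω) X Y d)) :=
      Finset.sum_lt_sum (fun ω _ => h1 ω)
        ⟨ω₀, Finset.mem_univ _, mul_lt_mul_of_pos_left (hne ω₀) hω₀⟩
    rw [← Finset.sum_mul, hp1, one_mul] at h2
    linarith
  exact core w b m M k s hw hb hm hM (J ω) (addr ω) (query ω) (hq ω) hω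

theorem M_sq (w b m M : ℕ) (hm : m = 4000 * w) (hM : M = 10000 * b * m) :
    M ^ 2 / 8 = 2 * 10 ^ 14 * b ^ 2 * w ^ 2 := by
  rw [show M ^ 2 = 8 * (2 * 10 ^ 14 * b ^ 2 * w ^ 2) by rw [hM, hm]; ring]
  exact Nat.mul_div_cancel_left _ (by norm_num)

theorem numer (w b m M k s N : ℕ) (hw : 1 ≤ w) (hm : m = 4000 * w) (hM : M = 10000 * b * m)
    (hN : N < 2 * (M ^ 2 / 8) * (k + 1)) (hk : k ^ 2 ≤ 2 * m * s) (hs : 1 ≤ s) :
    N ^ 2 ≤ 10 ^ 34 * b ^ 4 * w ^ 5 * s := by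
  rw [M_sq w b m M hm hM] at hN
  obtain ⟨u, hu⟩ : ∃ u, u = 2 * 10 ^ 14 * b ^ 2 * w ^ 2 := ⟨_, rfl⟩
  rw [← hu] at hN
  have hu2 : u ^ 2 = 4 * 10 ^ 28 * (b ^ 4 * w ^ 4) := by rw [hu]; ring
  have h5 : b ^ 4 * w ^ 4 ≤ b ^ 4 * w ^ 5 * s := by
    calc b ^ 4 * w ^ 4 = b ^ 4 * w ^ 4 * 1 := by ring
      _ ≤ b ^ 4 * w ^ 4 * (w * s) := Nat.mul_le_mul_left _ (Nat.mul_pos hw hs)
      _ = b ^ 4 * w ^ 5 * s := by ring
  rcases Nat.eq_zero_or_pos k with h0 | h0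
  · subst h0
    calc N ^ 2 ≤ (2 * u) ^ 2 := Nat.pow_le_pow_left (by omega) 2
      _ = 4 * u ^ 2 := by ring
      _ = 16 * 10 ^ 28 * (b ^ 4 * w ^ 4) := by rw [hu2]; ring
      _ ≤ 10 ^ 34 * (b ^ 4 * w ^ 5 * s) := Nat.mul_le_mul (by norm_num) h5
      _ = _ := by ring
  · have h1 : N ≤ 4 * u * k := by
      have h2 : 2 * u * (k + 1) ≤ 2 * u * (2 * k) := Nat.mul_le_mul_left _ (by omega)
      have h3 : 2 * u * (2 * k) = 4 * u * k := by ring
      omega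
    calc N ^ 2 ≤ (4 * u * k) ^ 2 := Nat.pow_le_pow_left h1 2
      _ = 16 * u ^ 2 * k ^ 2 := by ring
      _ ≤ 16 * u ^ 2 * (2 * m * s) := Nat.mul_le_mul_left _ hk
      _ = 512 * 10 ^ 31 * (b ^ 4 * w ^ 5 * s) := by rw [hu2, hm]; ring
      _ ≤ 10 ^ 34 * (b ^ 4 * w ^ 5 * s) := Nat.mul_le_mul_right _ (by norm_num)
      _ = _ := by ring

end Pool.Agent.Y516.OJ
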