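import Pool.Agent.Y516.OJ.Ub2
import Pool.Agent.Y516.OJ.Chunk2
import Pool.Agent.Y516.OJ.Ad
import Pool.Agent.Y502.OJ.Dp
import Pool.Agent.Y516.OJ.Fin

set_option autoImplicit false

/-!
# Adaptive addresses: the core statement
-/

namespace Pool.Agent.Y516.OJ

open Finset
open Pool.Agent.Y502.OJ (EE_notDisj card_eq_sum ind_true ind_false)

/-- (AD2) If the address of the joint cell is an arbitrary function `key d X` of the query `d` and of
the first side, then there must be at least `|E| / (10 m)` cells for the queries in `E`. -/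
def AdStm2 : Prop := ∀ w b l m M k s : ℕ, 1 ≤ w → 1 ≤ b → m = 4000 * w →
  M = 10000 * (b + l) * m →
  ∀ (E : Finset (Fin k × Fin k)), E.card ≤ 2 ^ l →
  ∀ (J : Fam (M ^ 2 / 8) k → Fam (M ^ 2 / 8) k → Fin s → Fin (2 ^ w))
    (key : Fin k × Fin k → Fam (M ^ 2 / 8) k → Fin s)
    (query : Fin k × Fin k → Fin (2 ^ w) → Prot (Fam (M ^ 2 / 8) k) (Fam (M ^ 2 / 8) k)),
  (∀ d v, (query d v).depth ≤ b) →
  ∑ d ∈ E, EE (1 / (M : ℝ)) (fun X Y => ind (¬ ((query d (J X Y (key d X))).run X Y = true ↔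
    ¬ Disj X Y d))) ≤ (E.card : ℝ) / 10 ^ 6 →
  E.card ≤ 10 * m * s

theorem ad2 (hUB : UB2Stm) (hH : HolStm) (hPar : ParStm) : AdStm2 := by
  classical
  intro w b l m M k s hw hb hm hM E hkl J key query hdep hsmall
  obtain ⟨K, hK⟩ : ∃ K, K = E.card := ⟨_, rfl⟩
  rw [← hK] at hkl hsmall ⊢
  obtain ⟨hp1, hp2⟩ := hPar w (b + l) m M hw (by omega) hm hM
  have hm1 : 4000 ≤ m := by omega
  have hMm : 10000 * m ≤ M := by
    rw [hM]
    nlinarith
  have hM1 : 40000000 ≤ M := by omega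
  have hMR : (40000000 : ℝ) ≤ (M : ℝ) := by exact_mod_cast hM1
  have hM0 : (0 : ℝ) < (M : ℝ) := by linarith
  have hMmR : 10000 * (m : ℝ) ≤ (M : ℝ) := by exact_mod_cast hMm
  have hm1R : (4000 : ℝ) ≤ (m : ℝ) := by exact_mod_cast hm1
  have hm0R : (0 : ℝ) < (m : ℝ) := by linarith
  obtain ⟨α, hα⟩ : ∃ α : ℝ, α = 1 / (M : ℝ) := ⟨_, rfl⟩
  rw [← hα] at hsmall hp1 hp2
  have hα0 : 0 < α := by rw [hα]; positivity
  have hα1 : α ≤ 1 := by
    rw [hα, div_le_one hM0]; linarith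
  have h10 : 10 * (m : ℝ) * α ≤ 1 := by
    rw [hα, mul_one_div, div_le_one hM0]; linarith
  have huα : ((M ^ 2 / 8 : ℕ) : ℝ) * (α * α) ≤ 1 / 8 := by
    have h1 : ((M ^ 2 / 8 : ℕ) : ℝ) ≤ (M : ℝ) ^ 2 / 8 := by
      have := @Nat.cast_div_le ℝ _ _ _ (M ^ 2) 8
      simpa using this
    have h2 : (M : ℝ) ^ 2 / 8 * (α * α) = 1 / 8 := by
      rw [hα]; field_simp
    calc ((M ^ 2 / 8 : ℕ) : ℝ) * (α * α) ≤ (M : ℝ) ^ 2 / 8 * (α * α) :=
          mul_le_mul_of_nonneg_right h1 (by positivity)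
      _ = 1 / 8 := h2
  obtain ⟨r, hr⟩ : ∃ r : ℕ, r = m / 10000 := ⟨_, rfl⟩
  rw [← hr] at hp2
  have hr1 : m < 10000 * (r + 1) := by omega
  have hr1R : (m : ℝ) < 10000 * ((r : ℝ) + 1) := by exact_mod_cast hr1
  by_contra hk
  push Not at hk
  have hs : 1 ≤ s := by
    have hEc : 0 < E.card := by rw [← hK]; omega
    obtain ⟨d, _⟩ := card_pos.1 hEc
    have h := (key d (fun _ _ => false)).2
    omega
  have hmk : m ≤ K := by nlinarith
  have hkR : 10 * (m : ℝ) * s < K := by exact_mod_cast hk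
  have hk0R : (0 : ℝ) < K := by
    have : (m : ℝ) ≤ K := by exact_mod_cast hmk
    linarith
  choose C hC1 hC2 hC3 using fun X : Fam (M ^ 2 / 8) k =>
    chunk2 (m := m) (by omega) E (fun i => key i X)
  -- errors and intersections
  obtain ⟨Wr, hWr⟩ : ∃ Wr : Fin k × Fin k → Fam (M ^ 2 / 8) k → Fam (M ^ 2 / 8) k → ℝ, Wr = fun i X Y =>
    ind (¬ ((query i (J X Y (key i X))).run X Y = true ↔ ¬ Disj X Y i)) := ⟨_, rfl⟩
  obtain ⟨In, hIn⟩ : ∃ In : Fin k × Fin k → Fam (M ^ 2 / 8) k → Fam (M ^ 2 / 8) k → ℝ, In = fun i X Y =>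
    ind (¬ Disj X Y i) := ⟨_, rfl⟩
  have hWr0 : ∀ i X Y, 0 ≤ Wr i X Y := fun i X Y => by rw [hWr]; exact ind_nonneg _
  have hIn0 : ∀ i X Y, 0 ≤ In i X Y := fun i X Y => by rw [hIn]; exact ind_nonneg _
  -- the good event for the rows in `I` and the content `v`
  obtain ⟨Gd, hGd⟩ : ∃ Gd : Finset (Fin k × Fin k) → Fin (2 ^ w) → Fam (M ^ 2 / 8) k →
    Fam (M ^ 2 / 8) k → ℝ, Gd = fun I v X Y =>
    ind (nErr I (fun d => query d v) X Y ≤ r ∧ 2 * nInt I X Y ≤ m) := ⟨_, rfl⟩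
  have hGd0 : ∀ I v X Y, 0 ≤ Gd I v X Y := fun I v X Y => by rw [hGd]; exact ind_nonneg _
  -- one set of rows
  have hone : ∀ X Y, ∀ I ∈ C X, (1 : ℝ) ≤ ∑ v, Gd I v X Y + 10000 / m * ∑ i ∈ I, Wr i X Y +
      2 / m * ∑ i ∈ I, In i X Y := by
    intro X Y I hI
    obtain ⟨hIE, hIc, hIk⟩ := hC1 X I hI
    have hne : I.Nonempty := card_pos.1 (by omega)
    obtain ⟨i₀, hi₀⟩ := hne
    obtain ⟨v, hv⟩ : ∃ v, v = J X Y (key i₀ X) := ⟨_, rfl⟩
    have e1 : (nErr I (fun d => query d v) X Y : ℝ) = ∑ i ∈ I, Wr i X Y := by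
      unfold nErr
      rw [card_eq_sum]
      refine Finset.sum_congr rfl fun i hi => ?_
      rw [hWr]
      simp only
      rw [hv, hIk i₀ hi₀ i hi]
    have e2 : (nInt I X Y : ℝ) = ∑ i ∈ I, In i X Y := by
      unfold nInt
      rw [card_eq_sum]
      refine Finset.sum_congr rfl fun i hi => ?_
      rw [hIn]
    rw [← e1, ← e2]
    have hsv : Gd I v X Y ≤ ∑ v, Gd I v X Y :=
      Finset.single_le_sum (f := fun v => Gd I v X Y) (fun v _ => hGd0 I v X Y)
        (Finset.mem_univ v)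
    have hn1 : (0 : ℝ) ≤ 10000 / m * (nErr I (fun d => query d v) X Y : ℝ) := by positivity
    have hn2 : (0 : ℝ) ≤ 2 / m * (nInt I X Y : ℝ) := by positivity
    have hn3 : (0 : ℝ) ≤ ∑ v, Gd I v X Y := Finset.sum_nonneg fun v _ => hGd0 I v X Y
    by_cases g1 : nErr I (fun d => query d v) X Y ≤ r
    · by_cases g2 : 2 * nInt I X Y ≤ m
      · have g3 : Gd I v X Y = 1 := by
          rw [hGd]
          exact ind_true ⟨g1, g2⟩
        linarith
      · have g3 : (m : ℝ) < 2 * (nInt I X Y : ℝ) := by exact_mod_cast (not_le.mp g2)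
        have g4 : 1 ≤ 2 / m * (nInt I X Y : ℝ) := by
          rw [div_mul_eq_mul_div, le_div_iff₀ hm0R]
          linarith
        linarith
    · have g3 : ((r : ℝ) + 1) ≤ (nErr I (fun d => query d v) X Y : ℝ) := by
        exact_mod_cast (not_le.mp g1)
      have g4 : 1 ≤ 10000 / m * (nErr I (fun d => query d v) X Y : ℝ) := by
        rw [div_mul_eq_mul_div, le_div_iff₀ hm0R]
        linarith
      linarith
  -- all sets of rows
  obtain ⟨PP, hPP⟩ : ∃ PP : Finset (Finset (Fin k × Fin k)), PP = powersetCard m E := ⟨_, rfl⟩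
  have hPPc : ∀ I ∈ PP, I.card = m := by
    rw [hPP]
    intro I hI
    exact (mem_powersetCard.1 hI).2
  have hCP : ∀ X, C X ⊆ PP := by
    intro X I hI
    rw [hPP]
    exact mem_powersetCard.2 ⟨(hC1 X I hI).1, (hC1 X I hI).2.1⟩
  have hsel : ∀ (X : Fam (M ^ 2 / 8) k) (g : Finset (Fin k × Fin k) → ℝ),
      ∑ I ∈ C X, g I = ∑ I ∈ PP, ind (decide (I ∈ C X) = true) * g I := by
    intro X g
    rw [← Finset.sum_subset (hCP X) (f := fun I => ind (decide (I ∈ C X) = true) * g I)]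
    · refine Finset.sum_congr rfl fun I hI => ?_
      rw [ind_true (by simpa using hI), one_mul]
    · intro I _ hI
      rw [ind_false (by simpa using hI), zero_mul]
  have hall : ∀ X Y, ((K : ℝ) - s * m) / m ≤ ∑ v, ∑ I ∈ PP, ind (decide (I ∈ C X) = true) *
      Gd I v X Y + 10000 / m * ∑ i ∈ E, Wr i X Y + 2 / m * ∑ i ∈ E, In i X Y := by
    intro X Y
    have a1 : ((K : ℝ) - s * m) / m ≤ (C X).card := by
      rw [div_le_iff₀ hm0R]
      have := hC3 X
      rw [← hK] at this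
      have h' : (K : ℝ) ≤ m * (C X).card + s * m := by exact_mod_cast this
      linarith
    have a2 : ((C X).card : ℝ) ≤ ∑ I ∈ C X, (∑ v, Gd I v X Y + 10000 / m * ∑ i ∈ I, Wr i X Y +
        2 / m * ∑ i ∈ I, In i X Y) := by
      calc ((C X).card : ℝ) = ∑ I ∈ C X, (1 : ℝ) := by simp
        _ ≤ _ := Finset.sum_le_sum fun I hI => hone X Y I hI
    rw [Finset.sum_add_distrib, Finset.sum_add_distrib, ← Finset.mul_sum, ← Finset.mul_sum] at a2
    have a3 := chunk2_sum E (C X) (fun I hI => (hC1 X I hI).1) (hC2 X) (fun i => Wr i X Y) fun i => hWr0 i X Y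
    have a4 := chunk2_sum E (C X) (fun I hI => (hC1 X I hI).1) (hC2 X) (fun i => In i X Y) fun i => hIn0 i X Y
    have a5 : 10000 / (m : ℝ) * ∑ I ∈ C X, ∑ i ∈ I, Wr i X Y ≤ 10000 / m * ∑ i ∈ E, Wr i X Y :=
      mul_le_mul_of_nonneg_left a3 (by positivity)
    have a6 : 2 / (m : ℝ) * ∑ I ∈ C X, ∑ i ∈ I, In i X Y ≤ 2 / m * ∑ i ∈ E, In i X Y :=
      mul_le_mul_of_nonneg_left a4 (by positivity)
    have a7 : ∑ I ∈ C X, ∑ v, Gd I v X Y =
        ∑ v, ∑ I ∈ PP, ind (decide (I ∈ C X) = true) * Gd I v X Y := by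
      rw [Finset.sum_comm]
      exact Finset.sum_congr rfl fun v _ => hsel X fun I => Gd I v X Y
    rw [a7] at a2
    linarith
  -- expectations
  have hE : ((K : ℝ) - s * m) / m ≤ ∑ v, ∑ I ∈ PP, EE α (fun X Y =>
      ind (decide (I ∈ C X) = true) * Gd I v X Y) + 10000 / m * (K / 10 ^ 6) +
      2 / m * (K * (1 / 8)) := by
    have b1 := EE_mono (α := α) hα0.le hα1 hall
    rw [EE_const] at b1
    refine b1.trans ?_
    rw [Pool.Agent.Y502.OJ.EE_add, Pool.Agent.Y502.OJ.EE_add, EE_mul, EE_mul, EE_sum, EE_sum,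
      EE_sum]
    have b2 : ∑ i ∈ E, EE α (Wr i) ≤ (K : ℝ) / 10 ^ 6 := by
      rw [hWr]
      exact hsmall
    have b3 : ∑ i ∈ E, EE α (In i) ≤ K * (1 / 8) := by
      calc ∑ i ∈ E, EE α (In i) ≤ ∑ _i ∈ E, (1 / 8 : ℝ) := by
            refine Finset.sum_le_sum fun i _ => ?_
            rw [hIn]
            exact (EE_notDisj hα0.le hα1 i).trans huα
        _ = K * (1 / 8) := by rw [Finset.sum_const, nsmul_eq_mul, ← hK]
    have b4 : ∀ v, EE α (fun X Y => ∑ I ∈ PP, ind (decide (I ∈ C X) = true) * Gd I v X Y) =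
        ∑ I ∈ PP, EE α (fun X Y => ind (decide (I ∈ C X) = true) * Gd I v X Y) := fun v =>
      EE_sum PP α fun I X Y => ind (decide (I ∈ C X) = true) * Gd I v X Y
    rw [Finset.sum_congr rfl fun v _ => b4 v]
    have b5 : 10000 / (m : ℝ) * ∑ i ∈ E, EE α (Wr i) ≤ 10000 / m * (K / 10 ^ 6) :=
      mul_le_mul_of_nonneg_left b2 (by positivity)
    have b6 : 2 / (m : ℝ) * ∑ i ∈ E, EE α (In i) ≤ 2 / m * (K * (1 / 8)) :=
      mul_le_mul_of_nonneg_left b3 (by positivity)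
    linarith
  -- the sum of the probabilities of the events `I ∈ C X`
  have hT1 : (1 : ℝ) ≤ K / m := by
    rw [le_div_iff₀ hm0R, one_mul]
    exact_mod_cast hmk
  have hsumA : ∑ I ∈ PP, EE α (fun X (_ : Fam (M ^ 2 / 8) k) =>
      ind (decide (I ∈ C X) = true)) ≤ K / m := by
    rw [← EE_sum PP α fun I X _ => ind (decide (I ∈ C X) = true)]
    calc EE α (fun X (_ : Fam (M ^ 2 / 8) k) => ∑ I ∈ PP, ind (decide (I ∈ C X) = true))
        ≤ EE α (fun _ _ : Fam (M ^ 2 / 8) k => (K : ℝ) / m) := by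
          refine EE_mono hα0.le hα1 fun X _ => ?_
          have c1 := hsel X fun _ => (1 : ℝ)
          simp only [mul_one] at c1
          rw [← c1]
          have c2 : ∑ I ∈ C X, (1 : ℝ) = (C X).card := by simp
          rw [c2, le_div_iff₀ hm0R]
          have c3 := chunk2_le E (C X) (fun I hI => (hC1 X I hI).1)
            (fun I hI => (hC1 X I hI).2.1) (hC2 X)
          rw [← hK] at c3
          have c4 : (m : ℝ) * (C X).card ≤ K := by exact_mod_cast c3
          linarith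
      _ = K / m := EE_const α _ _ _
  -- the bound for one content
  have hδ0 : 0 < 2 * (m : ℝ) * α := by positivity
  obtain ⟨C0, hC0⟩ : ∃ C0 : ℝ, C0 = 2 ^ r * ((1 + 399 / 400) / 2) ^ ((m : ℝ) / 2 - r) := ⟨_, rfl⟩
  have hC00 : 0 ≤ C0 := by
    rw [hC0]
    positivity
  have hv : ∀ v, ∑ I ∈ PP, EE α (fun X Y => ind (decide (I ∈ C X) = true) * Gd I v X Y) ≤
      C0 * (K / m * (2 : ℝ) ^ (((b + l : ℕ) : ℝ) * m * (2 * m * α))) := by
    intro v
    have hcardI : ∀ I : PP, (I : Finset (Fin k × Fin k)).card = m := by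
      intro I
      exact hPPc I I.2
    choose P hP0 hPs hPb using fun I : PP => hUB (M ^ 2 / 8) k m b r α (399 / 400)
      (I : Finset (Fin k × Fin k)) (fun d => query d v)
      (fun X => decide ((I : Finset (Fin k × Fin k)) ∈ C X)) hα0 h10 (by omega) (hcardI I)
      (fun d => hdep d v) (by norm_num) (by norm_num) hp1
    have d1 : ∑ I ∈ PP, EE α (fun X Y => ind (decide (I ∈ C X) = true) * Gd I v X Y) ≤
        C0 * ∑ I : PP, ∑ R, P I R ^ (1 / (1 + 2 * (m : ℝ) * α)) := by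
      rw [← Finset.sum_coe_sort PP fun I => EE α (fun X Y =>
        ind (decide (I ∈ C X) = true) * Gd I v X Y), Finset.mul_sum]
      refine Finset.sum_le_sum fun I _ => ?_
      have := hPb I
      rw [hGd, hC0]
      exact this
    have d2 : ∑ I : PP, ∑ R, P I R ≤ K / m := by
      refine (Finset.sum_le_sum fun I _ => hPs I).trans ?_
      rw [Finset.sum_coe_sort PP fun I => EE α (fun X (_ : Fam (M ^ 2 / 8) k) =>
        ind (decide (I ∈ C X) = true))]
      exact hsumA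
    have d3 : (Fintype.card (Σ I : PP, (↥(I : Finset (Fin k × Fin k)) → Fin (2 ^ b))) : ℝ) ≤
        (2 : ℝ) ^ ((b + l) * m) := by
      have e1 : Fintype.card (Σ I : PP, (↥(I : Finset (Fin k × Fin k)) → Fin (2 ^ b))) =
          PP.card * (2 ^ b) ^ m := by
        rw [Fintype.card_sigma]
        have e2 : ∀ I : PP, Fintype.card (↥(I : Finset (Fin k × Fin k)) → Fin (2 ^ b)) =
            (2 ^ b) ^ m := by
          intro I
          rw [Fintype.card_fun, Fintype.card_fin, Fintype.card_coe, hcardI I]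
        rw [Finset.sum_congr rfl fun I _ => e2 I, Finset.sum_const, Finset.card_univ,
          Fintype.card_coe, smul_eq_mul]
      have e3 : PP.card ≤ (2 ^ l) ^ m := by
        rw [hPP, card_powersetCard, ← hK]
        exact (Nat.choose_le_pow K m).trans (Nat.pow_le_pow_left hkl m)
      have e4 : PP.card * (2 ^ b) ^ m ≤ 2 ^ ((b + l) * m) := by
        calc PP.card * (2 ^ b) ^ m ≤ (2 ^ l) ^ m * (2 ^ b) ^ m := Nat.mul_le_mul_right _ e3
          _ = 2 ^ ((b + l) * m) := by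
              rw [← pow_mul, ← pow_mul, ← pow_add]
              congr 1
              ring
      rw [e1]
      exact_mod_cast e4
    have d4 := hol_sigma hH (fun I : PP => (↥(I : Finset (Fin k × Fin k)) → Fin (2 ^ b))) P
      (2 * (m : ℝ) * α) (K / m) ((2 : ℝ) ^ ((b + l) * m)) hδ0 hT1 hP0 d2 d3
    refine d1.trans (mul_le_mul_of_nonneg_left (d4.trans (le_of_eq ?_)) hC00)
    congr 1
    rw [← Real.rpow_natCast 2 ((b + l) * m), ← Real.rpow_mul (by norm_num)]
    push_cast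
    ring_nf
  -- contradiction
  have hfin : ∑ v : Fin (2 ^ w), ∑ I ∈ PP, EE α (fun X Y =>
      ind (decide (I ∈ C X) = true) * Gd I v X Y) ≤ 5 / 8 * (K / m) := by
    calc ∑ v : Fin (2 ^ w), ∑ I ∈ PP, EE α (fun X Y =>
          ind (decide (I ∈ C X) = true) * Gd I v X Y)
        ≤ ∑ v : Fin (2 ^ w), C0 * (K / m *
          (2 : ℝ) ^ (((b + l : ℕ) : ℝ) * m * (2 * m * α))) := Finset.sum_le_sum fun v _ => hv v
      _ = 2 ^ w * (C0 * (2 : ℝ) ^ (((b + l : ℕ) : ℝ) * m * (2 * m * α))) * (K / m) := by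
          rw [Finset.sum_const, Finset.card_univ, Fintype.card_fin, nsmul_eq_mul]
          push_cast
          ring
      _ ≤ 2 ^ w * ((5 / 8) / 2 ^ w) * (K / m) := by
          refine mul_le_mul_of_nonneg_right (mul_le_mul_of_nonneg_left ?_ (by positivity))
            (by positivity)
          rw [hC0]
          exact hp2.le
      _ = 5 / 8 * (K / m) := by
          field_simp
  have h1 := hE.trans (add_le_add (add_le_add hfin le_rfl) le_rfl)
  rw [div_le_iff₀ hm0R] at h1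
  have h2 : (5 / 8 * ((K : ℝ) / m) + 10000 / m * (K / 10 ^ 6) + 2 / m * (K * (1 / 8))) * m =
      (5 / 8 + 1 / 100 + 1 / 4) * K := by
    field_simp
    ring
  rw [h2] at h1
  nlinarith

end Pool.Agent.Y516.OJ
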