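import Pool.Agent.Y516.OJ.Stm

set_option autoImplicit false

/-!
# One probe to a joint cell with an address which depends on one side: definitions
-/

namespace Pool.Agent.Y516.OJ

open Finset

/-- A (deterministic) data structure for 3SUM-Indexing on two arrays of `n` numbers, with `s` cells
of `w` bits. Every cell may be an arbitrary function of both arrays. On the query `z` one cell is
read; its number `addr z A` may be an arbitrary function of `z` and of the first array `A`. Then the
query is answered by a communication protocol, which may depend on `z` and on the content of this
cell, between a player who knows the first array and a player who knows the second array. -/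
structure SumADS (n w s : ℕ) where
  /-- the contents of the cells -/
  cell : (Fin n → ℕ) → (Fin n → ℕ) → Fin s → Fin (2 ^ w)
  /-- the cell which is read on a query -/
  addr : ℕ → (Fin n → ℕ) → Fin s
  /-- the protocol which is used for a query and a content of the cell -/
  query : ℕ → Fin (2 ^ w) → Prot (Fin n → ℕ) (Fin n → ℕ)

/-- the answer to the query `z` on the arrays `A`, `B` -/
def SumADS.answer {n w s : ℕ} (D : SumADS n w s) (A B : Fin n → ℕ) (z : ℕ) : Bool :=
  (D.query z (D.cell A B (D.addr z A))).run A B

/-- The random data structure `D` (which is `D ω` with probability `p ω`) answers, with protocols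
of at most `b` bits, every query `z < n ^ 2` (is `z` the sum of an entry of `A` and an entry of
`B`?) on all arrays with entries at most `n ^ 2` with error probability at most
`1 / (2 * 10 ^ 6)`. -/
def SolvesSumA {n w s : ℕ} (b : ℕ) {Ω : Type} [Fintype Ω] (p : Ω → ℝ) (D : Ω → SumADS n w s) :
    Prop :=
  (∀ ω, 0 ≤ p ω) ∧ ∑ ω, p ω = 1 ∧ (∀ ω z v, ((D ω).query z v).depth ≤ b) ∧
    ∀ A B : Fin n → ℕ, (∀ i, A i ≤ n ^ 2) → (∀ j, B j ≤ n ^ 2) → ∀ z : ℕ, z < n ^ 2 →
      1 - 1 / (2 * 10 ^ 6) ≤ ∑ ω, p ω * ind ((D ω).answer A B z = true ↔ ∃ i j, A i + B j = z)

/-- A (deterministic) data structure for families of `2 * k` subsets of a universe with `u`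
elements, which are given as two halves of `k` sets, with `s` cells of `w` bits. Every cell may be
an arbitrary function of the whole family. On the query `(i, j)` (do the set number `i` of the first
half and the set number `j` of the second half intersect?) one cell is read; its number
`addr i j F` may be an arbitrary function of the query and of the first half `F`. Then the query is
answered by a communication protocol, which may depend on the query and on the content of this
cell, between a player who knows the first half of the family and a player who knows the second
half. -/
structure PairADS (k u w s : ℕ) where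
  /-- the contents of the cells -/
  cell : (Fin k → Finset (Fin u)) → (Fin k → Finset (Fin u)) → Fin s → Fin (2 ^ w)
  /-- the cell which is read on a query -/
  addr : Fin k → Fin k → (Fin k → Finset (Fin u)) → Fin s
  /-- the protocol which is used for a query and a content of the cell -/
  query : Fin k → Fin k → Fin (2 ^ w) → Prot (Fin k → Finset (Fin u)) (Fin k → Finset (Fin u))

/-- the answer to the query `(i, j)` on the family with the halves `F`, `G` -/
def PairADS.answer {k u w s : ℕ} (D : PairADS k u w s) (F G : Fin k → Finset (Fin u))
    (i j : Fin k) : Bool :=
  (D.query i j (D.cell F G (D.addr i j F))).run F G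

/-- The random data structure `D` (which is `D ω` with probability `p ω`) decides, with protocols
of at most `b` bits, for all families of total size at most `N` and all queries `(i, j)`, whether
the sets `F i` and `G j` intersect, with error probability at most `1 / (2 * 10 ^ 6)`. -/
def SolvesPairA {k u w s : ℕ} (b N : ℕ) {Ω : Type} [Fintype Ω] (p : Ω → ℝ)
    (D : Ω → PairADS k u w s) : Prop :=
  (∀ ω, 0 ≤ p ω) ∧ ∑ ω, p ω = 1 ∧ (∀ ω i j v, ((D ω).query i j v).depth ≤ b) ∧
    ∀ F G : Fin k → Finset (Fin u), ∑ i, (F i).card + ∑ j, (G j).card ≤ N → ∀ i j : Fin k,
      1 - 1 / (2 * 10 ^ 6) ≤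
        ∑ ω, p ω * ind ((D ω).answer F G i j = true ↔ (F i ∩ G j).Nonempty)

end Pool.Agent.Y516.OJ
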