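import Pool.Agent.Y516.OJ.Stm

set_option autoImplicit false

/-!
# Set intersection with one probe to a two-dimensional joint table: definitions
-/

namespace Pool.Agent.Y516.OJ

open Finset

/-- A (deterministic) data structure for families of `2 * k` subsets of a universe with `u`
elements, which are given as two halves of `k` sets, with a table of `s₁` rows and `s₂` columns of
cells of `w` bits. Every cell may be an arbitrary function of the whole family. On the query
`(i, j)` (do the set number `i` of the first half and the set number `j` of the second half
intersect?) one cell of the table is read; its row `rowKey i F` may be an arbitrary function of `i`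
and of the first half `F`, and its column `colKey j G` may be an arbitrary function of `j` and of
the second half `G`. Then the query is answered by a communication protocol, which may depend on
the query and on the content of this cell, between a player who knows the first half of the family
and a player who knows the second half. -/
structure KeyDS (k u w s₁ s₂ : ℕ) where
  /-- the row of the cell which is read -/
  rowKey : Fin k → (Fin k → Finset (Fin u)) → Fin s₁
  /-- the column of the cell which is read -/
  colKey : Fin k → (Fin k → Finset (Fin u)) → Fin s₂
  /-- the contents of the cells -/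
  cell : (Fin k → Finset (Fin u)) → (Fin k → Finset (Fin u)) → Fin s₁ → Fin s₂ → Fin (2 ^ w)
  /-- the protocol which is used for a query and a content of the cell -/
  query : Fin k → Fin k → Fin (2 ^ w) → Prot (Fin k → Finset (Fin u)) (Fin k → Finset (Fin u))

/-- the answer to the query `(i, j)` on the family with the halves `F`, `G` -/
def KeyDS.answer {k u w s₁ s₂ : ℕ} (D : KeyDS k u w s₁ s₂) (F G : Fin k → Finset (Fin u))
    (i j : Fin k) : Bool :=
  (D.query i j (D.cell F G (D.rowKey i F) (D.colKey j G))).run F G

/-- The random data structure `D` (which is `D ω` with probability `p ω`) decides, with protocols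
of at most `b` bits, for all families of total size at most `N` and all queries `(i, j)`, whether
the sets `F i` and `G j` intersect, with error probability at most `1 / (2 * 10 ^ 6)`. -/
def SolvesKey {k u w s₁ s₂ : ℕ} (b N : ℕ) {Ω : Type} [Fintype Ω] (p : Ω → ℝ)
    (D : Ω → KeyDS k u w s₁ s₂) : Prop :=
  (∀ ω, 0 ≤ p ω) ∧ ∑ ω, p ω = 1 ∧ (∀ ω i j v, ((D ω).query i j v).depth ≤ b) ∧
    ∀ F G : Fin k → Finset (Fin u), ∑ i, (F i).card + ∑ j, (G j).card ≤ N → ∀ i j : Fin k,
      1 - 1 / (2 * 10 ^ 6) ≤
        ∑ ω, p ω * ind ((D ω).answer F G i j = true ↔ (F i ∩ G j).Nonempty)

end Pool.Agent.Y516.OJ
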