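import Pool.Agent.Y516.OJ.Stm

set_option autoImplicit false

/-!
# Set intersection with one probe to a joint cell: definitions
-/

namespace Pool.Agent.Y516.OJ

open Finset

/-- A (deterministic) data structure for families of `2 * k` subsets of a universe with `u`
elements, which are given as two halves of `k` sets, with `s` cells of `w` bits. Every cell may be
an arbitrary function of the whole family. On the query `(i, j)` (do the set number `i` of the first
half and the set number `j` of the second half intersect?) the cell number `addr i j` is read. Then
the query is answered by a communication protocol, which may depend on the query and on the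
content of this cell, between a player who knows the first half of the family and a player who
knows the second half. -/
structure PairDS (k u w s : ℕ) where
  /-- the contents of the cells -/
  cell : (Fin k → Finset (Fin u)) → (Fin k → Finset (Fin u)) → Fin s → Fin (2 ^ w)
  /-- the cell which is read on a query -/
  addr : Fin k → Fin k → Fin s
  /-- the protocol which is used for a query and a content of the cell -/
  query : Fin k → Fin k → Fin (2 ^ w) → Prot (Fin k → Finset (Fin u)) (Fin k → Finset (Fin u))

/-- the answer to the query `(i, j)` on the family with the halves `F`, `G` -/
def PairDS.answer {k u w s : ℕ} (D : PairDS k u w s) (F G : Fin k → Finset (Fin u))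
    (i j : Fin k) : Bool :=
  (D.query i j (D.cell F G (D.addr i j))).run F G

/-- The random data structure `D` (which is `D ω` with probability `p ω`) decides, with protocols
of at most `b` bits, for all families of total size at most `N` and all queries `(i, j)`, whether
the sets `F i` and `G j` intersect, with error probability at most `1 / (2 * 10 ^ 6)`. -/
def SolvesPair {k u w s : ℕ} (b N : ℕ) {Ω : Type} [Fintype Ω] (p : Ω → ℝ)
    (D : Ω → PairDS k u w s) : Prop :=
  (∀ ω, 0 ≤ p ω) ∧ ∑ ω, p ω = 1 ∧ (∀ ω i j v, ((D ω).query i j v).depth ≤ b) ∧
    ∀ F G : Fin k → Finset (Fin u), ∑ i, (F i).card + ∑ j, (G j).card ≤ N → ∀ i j : Fin k,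
      1 - 1 / (2 * 10 ^ 6) ≤
        ∑ ω, p ω * ind ((D ω).answer F G i j = true ↔ (F i ∩ G j).Nonempty)

end Pool.Agent.Y516.OJ
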