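import Pool.Agent.Y516.OJ.Tail
import Pool.Agent.Y516.OJ.PairDefs

set_option autoImplicit false

/-!
# Set intersection with one probe to a joint cell: reduction to the core statement
-/

namespace Pool.Agent.Y516.OJ

open Finset

/-- the sets of a family -/
def sets {u k : ℕ} (X : Fam u k) (i : Fin k) : Finset (Fin u) := univ.filter fun e => X e i = true

theorem sets_iff {u k : ℕ} (X Y : Fam u k) (i j : Fin k) :
    (sets X i ∩ sets Y j).Nonempty ↔ ¬ Disj X Y (i, j) := by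
  unfold Disj sets
  constructor
  · rintro ⟨e, he⟩ h
    rw [Finset.mem_inter, Finset.mem_filter, Finset.mem_filter] at he
    exact h e ⟨he.1.2, he.2.2⟩
  · intro h
    push Not at h
    obtain ⟨e, h1, h2⟩ := h
    exact ⟨e, by simp only [Finset.mem_inter, Finset.mem_filter, Finset.mem_univ, true_and]
                 exact ⟨h1, h2⟩⟩

theorem sum_sets {u k : ℕ} (X : Fam u k) : ∑ i, (sets X i).card = tot X := by
  unfold tot sets
  rw [Finset.sum_comm]
  refine Finset.sum_congr rfl fun i _ => ?_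
  rw [Finset.card_filter]

/-- **Main theorem** for set intersection. -/
theorem pair_main (core : CoreStm) (N w b : ℕ) (hw : 1 ≤ w) (hb : 1 ≤ b) :
    ∃ k u : ℕ, u ≤ 2 * 10 ^ 14 * b ^ 2 * w ^ 2 ∧ ∀ (s : ℕ) (Ω : Type) [Fintype Ω] (p : Ω → ℝ)
      (D : Ω → PairDS k u w s), SolvesPair b N p D → N ^ 2 ≤ 2 * 10 ^ 19 * b ^ 2 * w ^ 3 * s := by
  obtain ⟨m, hm⟩ : ∃ m, m = 4000 * w := ⟨_, rfl⟩
  obtain ⟨M, hM⟩ : ∃ M, M = 10000 * b * m := ⟨_, rfl⟩
  have hM1 : 1 ≤ M := by
    rw [hM, hm]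
    exact Nat.mul_pos (Nat.mul_pos (by norm_num) hb) (Nat.mul_pos (by norm_num) hw)
  obtain ⟨k, hk0⟩ : ∃ k, k = 2 * N / M := ⟨_, rfl⟩
  have hk2 : 2 * N < (k + 1) * M := by
    have h1 : 2 * N < M * (2 * N / M + 1) := Nat.lt_mul_div_succ (2 * N) (by omega)
    rw [hk0, mul_comm (2 * N / M + 1) M]
    exact h1
  rcases Nat.eq_zero_or_pos k with h0 | h0
  · refine ⟨1, 0, Nat.zero_le _, ?_⟩
    intro s Ω _ p D h
    obtain ⟨hp, hp1, hd, hgood⟩ := h
    have hs : 1 ≤ s := by
      by_contra hs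
      have hs0 : s = 0 := by omega
      subst hs0
      have : IsEmpty Ω := ⟨fun ω => ((D ω).addr 0 0).elim0⟩
      rw [Finset.univ_eq_empty, Finset.sum_empty] at hp1
      exact zero_ne_one hp1
    exact numer2 w b m M k s N hw hm hM hk2 (by rw [h0]; exact Nat.zero_le _) hs
  · refine ⟨k, M ^ 2 / 8, (M_sq w b m M hm hM).le, ?_⟩
    have hkM : k * M ≤ 2 * N := by
      rw [hk0]
      exact Nat.div_mul_le_self _ _
    intro s Ω _ p D h
    obtain ⟨hp, hp1, hd, hgood⟩ := h
    have hs : 1 ≤ s := by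
      by_contra hs
      have hs0 : s = 0 := by omega
      subst hs0
      have : IsEmpty Ω := ⟨fun ω => ((D ω).addr ⟨0, h0⟩ ⟨0, h0⟩).elim0⟩
      rw [Finset.univ_eq_empty, Finset.sum_empty] at hp1
      exact zero_ne_one hp1
    refine numer2 w b m M k s N hw hm hM hk2 ?_ hs
    refine master2 core w b m M k s N hw hb hm hM hkM Ω p hp hp1
      (fun ω X Y c => (D ω).cell (sets X) (sets Y) c)
      (fun ω d => (D ω).addr d.1 d.2)
      (fun ω d v => ((D ω).query d.1 d.2 v).comap sets sets)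
      (fun ω d v => by rw [Prot.depth_comap]; exact hd _ _ _ _) ?_
    intro X Y hXY d
    refine (hgood (sets X) (sets Y) (by rw [sum_sets, sum_sets]; exact hXY) d.1 d.2).trans
      (le_of_eq ?_)
    refine Finset.sum_congr rfl fun ω _ => ?_
    rw [sets_iff X Y d.1 d.2, Prot.run_comap]
    rfl

end Pool.Agent.Y516.OJ
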