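import Pool.Agent.Y516.OJ.Tail
import Pool.Agent.Y516.OJ.PairFin
import Pool.Agent.Y516.OJ.Ad
import Pool.Agent.Y516.OJ.KeyDefs

set_option autoImplicit false

/-!
# Set intersection with one probe to a two-dimensional joint table
-/

namespace Pool.Agent.Y516.OJ

open Finset

namespace Prot

variable {A B : Type}

/-- the protocol with exchanged players -/
def swap : Prot A B → Prot B A
  | out a => out a
  | left f p q => right f p.swap q.swap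
  | right g p q => left g p.swap q.swap

theorem run_swap (p : Prot A B) (x : A) (y : B) : p.swap.run y x = p.run x y := by
  induction p with
  | out a => rfl
  | left f p q ihp ihq => simp only [swap, run, ihp, ihq]
  | right f p q ihp ihq => simp only [swap, run, ihp, ihq]

theorem depth_swap (p : Prot A B) : p.swap.depth = p.depth := by
  induction p with
  | out a => rfl
  | left f p q ihp ihq => simp only [swap, depth, ihp, ihq]
  | right f p q ihp ihq => simp only [swap, depth, ihp, ihq]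

end Prot

/-- the data structure with exchanged halves -/
def KeyDS.swap {k u w s₁ s₂ : ℕ} (D : KeyDS k u w s₁ s₂) : KeyDS k u w s₂ s₁ where
  rowKey := D.colKey
  colKey := D.rowKey
  cell := fun F G x y => D.cell G F y x
  query := fun i j v => (D.query j i v).swap

theorem KeyDS.answer_swap {k u w s₁ s₂ : ℕ} (D : KeyDS k u w s₁ s₂)
    (F G : Fin k → Finset (Fin u)) (i j : Fin k) : D.swap.answer F G i j = D.answer G F j i := by
  unfold KeyDS.answer KeyDS.swap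
  exact Prot.run_swap _ _ _

theorem SolvesKey.swap {k u w s₁ s₂ b N : ℕ} {Ω : Type} [Fintype Ω] {p : Ω → ℝ}
    {D : Ω → KeyDS k u w s₁ s₂} (h : SolvesKey b N p D) :
    SolvesKey b N p (fun ω => (D ω).swap) := by
  obtain ⟨h1, h2, h3, h4⟩ := h
  refine ⟨h1, h2, fun ω i j v => ?_, fun F G hFG i j => ?_⟩
  · show ((D ω).query j i v).swap.depth ≤ b
    rw [Prot.depth_swap]
    exact h3 ω j i v
  · refine (h4 G F (by rw [add_comm]; exact hFG) j i).trans (le_of_eq ?_)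
    refine Finset.sum_congr rfl fun ω _ => ?_
    rw [KeyDS.answer_swap, Finset.inter_comm]

/-- Averages over the random bits. -/
theorem avg {ι : Type} [Fintype ι] (w b m M k N : ℕ) (hw : 1 ≤ w) (hb : 1 ≤ b) (hm : m = 4000 * w)
    (hM : M = 10000 * b * m) (hk0 : 1 ≤ k) (hN : k * M ≤ 2 * N) (Ω : Type) [Fintype Ω] (p : Ω → ℝ)
    (hp : ∀ ω, 0 ≤ p ω) (hp1 : ∑ ω, p ω = 1)
    (R : Ω → Fam (M ^ 2 / 8) k → Fam (M ^ 2 / 8) k → ι → Prop)
    (h : ∀ X Y, tot X + tot Y ≤ N → ∀ i, 1 - 1 / (2 * 10 ^ 6) ≤ ∑ ω, p ω * ind (R ω X Y i)) :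
    ∃ ω, ∑ i, EE (1 / (M : ℝ)) (fun X Y => ind (¬ R ω X Y i)) ≤ (Fintype.card ι : ℝ) / 10 ^ 6 := by
  have hM0 : (1 : ℝ) ≤ (M : ℝ) := by
    have h1 : 1 ≤ M := by
      rw [hM, hm]
      exact Nat.mul_pos (Nat.mul_pos (by norm_num) hb) (Nat.mul_pos (by norm_num) hw)
    exact_mod_cast h1
  have ha0 : (0 : ℝ) ≤ 1 / (M : ℝ) := by positivity
  have ha1 : 1 / (M : ℝ) ≤ 1 := by
    rw [div_le_one (by linarith)]
    exact hM0
  have hw1 : ∀ X Y i, ∑ ω, p ω * ind (¬ R ω X Y i) ≤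
      1 / (2 * 10 ^ 6) + ind (N < tot X + tot Y) := by
    intro X Y i
    have h1 : ∑ ω, p ω * ind (R ω X Y i) + ∑ ω, p ω * ind (¬ R ω X Y i) = 1 := by
      rw [← Finset.sum_add_distrib, ← hp1]
      refine Finset.sum_congr rfl fun ω _ => ?_
      rw [← mul_add, ind_add_not, mul_one]
    by_cases hsz : tot X + tot Y ≤ N
    · have h2 := h X Y hsz i
      have h3 := ind_nonneg (N < tot X + tot Y)
      linarith
    · have h3 : ind (N < tot X + tot Y) = 1 := by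
        unfold ind
        rw [if_pos (by omega)]
      have h4 : 0 ≤ ∑ ω, p ω * ind (R ω X Y i) :=
        Finset.sum_nonneg fun ω _ => mul_nonneg (hp ω) (ind_nonneg _)
      rw [h3]
      have h5 : (0 : ℝ) ≤ 1 / (2 * 10 ^ 6) := by norm_num
      linarith
  have htail := tail w b m M k N hw hb hm hM hk0 hN
  have havg : ∑ ω, p ω * ∑ i, EE (1 / (M : ℝ)) (fun X Y => ind (¬ R ω X Y i)) ≤
      (Fintype.card ι : ℝ) / 10 ^ 6 := by
    calc ∑ ω, p ω * ∑ i, EE (1 / (M : ℝ)) (fun X Y => ind (¬ R ω X Y i))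
        = ∑ ω, ∑ i, EE (1 / (M : ℝ)) (fun X Y => p ω * ind (¬ R ω X Y i)) := by
          refine Finset.sum_congr rfl fun ω _ => ?_
          rw [Finset.mul_sum]
          refine Finset.sum_congr rfl fun d _ => ?_
          rw [EE_mul]
      _ = ∑ i, ∑ ω, EE (1 / (M : ℝ)) (fun X Y => p ω * ind (¬ R ω X Y i)) := Finset.sum_comm
      _ = ∑ i : ι, EE (1 / (M : ℝ)) (fun X Y => ∑ ω, p ω * ind (¬ R ω X Y i)) := by
          refine Finset.sum_congr rfl fun d _ => ?_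
          rw [EE_sum]
      _ ≤ ∑ _i : ι, EE (u := M ^ 2 / 8) (k := k) (1 / (M : ℝ))
          (fun X Y => 1 / (2 * 10 ^ 6) + ind (N < tot X + tot Y)) :=
          Finset.sum_le_sum fun d _ => EE_mono ha0 ha1 fun X Y => hw1 X Y d
      _ = ∑ _i : ι, (1 / (2 * 10 ^ 6) + EE (u := M ^ 2 / 8) (k := k) (1 / (M : ℝ))
          (fun X Y => ind (N < tot X + tot Y))) := by
          refine Finset.sum_congr rfl fun d _ => ?_
          rw [EE_add, EE_const]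
      _ ≤ ∑ _i : ι, (1 / (2 * 10 ^ 6) + 1 / (2 * 10 ^ 6) : ℝ) :=
          Finset.sum_le_sum fun d _ => by linarith
      _ = (Fintype.card ι : ℝ) / 10 ^ 6 := by
          simp
          ring
  by_contra hne
  push Not at hne
  have h1 : ∀ ω, p ω * ((Fintype.card ι : ℝ) / 10 ^ 6) ≤
      p ω * ∑ i, EE (1 / (M : ℝ)) (fun X Y => ind (¬ R ω X Y i)) := fun ω =>
    mul_le_mul_of_nonneg_left (hne ω).le (hp ω)
  obtain ⟨ω₀, _, hω₀⟩ : ∃ ω ∈ (univ : Finset Ω), 0 < p ω := by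
    by_contra hno
    push Not at hno
    have : ∑ ω, p ω ≤ 0 := Finset.sum_nonpos hno
    linarith
  have h2 : ∑ ω, p ω * ((Fintype.card ι : ℝ) / 10 ^ 6) <
      ∑ ω, p ω * ∑ i, EE (1 / (M : ℝ)) (fun X Y => ind (¬ R ω X Y i)) :=
    Finset.sum_lt_sum (fun ω _ => h1 ω)
      ⟨ω₀, Finset.mem_univ _, mul_lt_mul_of_pos_left (hne ω₀) hω₀⟩
  rw [← Finset.sum_mul, hp1, one_mul] at h2
  linarith

/-- The number of the rows is large. -/
theorem rows (hA : AdStm) (w b l m M k N s₁ s₂ : ℕ) (hw : 1 ≤ w) (hb : 1 ≤ b) (hm : m = 4000 * w)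
    (hM : M = 10000 * (b + l) * m) (hkl : k ≤ 2 ^ l) (hk0 : 1 ≤ k) (hN : k * M ≤ 2 * N)
    (Ω : Type) [Fintype Ω] (p : Ω → ℝ) (D : Ω → KeyDS k (M ^ 2 / 8) w s₁ s₂)
    (h : SolvesKey b N p D) : k ≤ 10 * m * s₁ := by
  obtain ⟨hp, hp1, hd, hgood⟩ := h
  obtain ⟨j, hj⟩ : ∃ j : Fin k, j = ⟨0, hk0⟩ := ⟨_, rfl⟩
  obtain ⟨ω, hω⟩ := avg (ι := Fin k) w (b + l) m M k N hw (by omega) hm hM hk0 hN Ω p hp hp1
    (fun ω X Y i => (((D ω).query i j ((D ω).cell (sets X) (sets Y) ((D ω).rowKey i (sets X))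
      ((D ω).colKey j (sets Y)))).run (sets X) (sets Y) = true ↔ ¬ Disj X Y (i, j)))
    (by
      intro X Y hXY i
      refine (hgood (sets X) (sets Y) (by rw [sum_sets, sum_sets]; exact hXY) i j).trans
        (le_of_eq ?_)
      refine Finset.sum_congr rfl fun ω _ => ?_
      rw [sets_iff X Y i j]
      rfl)
  rw [Fintype.card_fin] at hω
  refine hA w b l m M k s₁ hw hb hm hM hkl
    (fun X Y x => (D ω).cell (sets X) (sets Y) x ((D ω).colKey j (sets Y)))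
    (fun i X => (D ω).rowKey i (sets X)) j
    (fun i v => ((D ω).query i j v).comap sets sets)
    (fun i v => by rw [Prot.depth_comap]; exact hd _ _ _ _) ?_
  simp only [Prot.run_comap]
  exact hω

theorem numer3 (w b m M k s₁ s₂ N : ℕ) (hw : 1 ≤ w) (hm : m = 4000 * w) (hM : M = 10000 * b * m)
    (hN : 2 * N < (k + 1) * M) (h1 : k ≤ 10 * m * s₁) (h2 : k ≤ 10 * m * s₂) (hs₁ : 1 ≤ s₁)
    (hs₂ : 1 ≤ s₂) : N ^ 2 ≤ 3 * 10 ^ 24 * b ^ 2 * w ^ 4 * (s₁ * s₂) := by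
  have hM2 : M ^ 2 = 16 * 10 ^ 14 * (b ^ 2 * w ^ 2) := by rw [hM, hm]; ring
  have h5 : b ^ 2 * w ^ 2 ≤ b ^ 2 * w ^ 4 * (s₁ * s₂) := by
    calc b ^ 2 * w ^ 2 = b ^ 2 * w ^ 2 * 1 := by ring
      _ ≤ b ^ 2 * w ^ 2 * (w ^ 2 * (s₁ * s₂)) :=
        Nat.mul_le_mul_left _ (Nat.mul_pos (Nat.pow_pos hw) (Nat.mul_pos hs₁ hs₂))
      _ = b ^ 2 * w ^ 4 * (s₁ * s₂) := by ring
  rcases Nat.eq_zero_or_pos k with h0 | h0
  · subst h0
    calc N ^ 2 ≤ M ^ 2 := Nat.pow_le_pow_left (by omega) 2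
      _ = 16 * 10 ^ 14 * (b ^ 2 * w ^ 2) := hM2
      _ ≤ 3 * 10 ^ 24 * (b ^ 2 * w ^ 4 * (s₁ * s₂)) := Nat.mul_le_mul (by norm_num) h5
      _ = _ := by ring
  · have h3 : N ≤ k * M := by
      have h2 : (k + 1) * M ≤ (2 * k) * M := Nat.mul_le_mul_right _ (by omega)
      have h3 : (2 * k) * M = 2 * (k * M) := by ring
      omega
    calc N ^ 2 ≤ (k * M) ^ 2 := Nat.pow_le_pow_left h3 2
      _ = M ^ 2 * (k * k) := by ring
      _ ≤ M ^ 2 * ((10 * m * s₁) * (10 * m * s₂)) :=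
        Nat.mul_le_mul_left _ (Nat.mul_le_mul h1 h2)
      _ = 256 * 10 ^ 22 * (b ^ 2 * w ^ 4 * (s₁ * s₂)) := by rw [hM2, hm]; ring
      _ ≤ 3 * 10 ^ 24 * (b ^ 2 * w ^ 4 * (s₁ * s₂)) := Nat.mul_le_mul_right _ (by norm_num)
      _ = _ := by ring

/-- **Main theorem** for two-dimensional tables. -/
theorem key_main (hA : AdStm) (N w b : ℕ) (hw : 1 ≤ w) (hb : 1 ≤ b) :
    ∃ k u : ℕ, u ≤ 2 * 10 ^ 14 * (b + (Nat.log 2 N + 1)) ^ 2 * w ^ 2 ∧
      ∀ (s₁ s₂ : ℕ) (Ω : Type) [Fintype Ω] (p : Ω → ℝ) (D : Ω → KeyDS k u w s₁ s₂),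
        SolvesKey b N p D →
          N ^ 2 ≤ 3 * 10 ^ 24 * (b + (Nat.log 2 N + 1)) ^ 2 * w ^ 4 * (s₁ * s₂) := by
  obtain ⟨l, hl⟩ : ∃ l, l = Nat.log 2 N + 1 := ⟨_, rfl⟩
  rw [← hl]
  obtain ⟨m, hm⟩ : ∃ m, m = 4000 * w := ⟨_, rfl⟩
  obtain ⟨M, hM⟩ : ∃ M, M = 10000 * (b + l) * m := ⟨_, rfl⟩
  have hM1 : 2 ≤ M := by
    rw [hM, hm]
    have h1 : 1 ≤ (b + l) * w := Nat.mul_pos (by omega) hw
    have h2 : 10000 * (b + l) * (4000 * w) = 4 * 10 ^ 7 * ((b + l) * w) := by ring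
    omega
  obtain ⟨k, hk0⟩ : ∃ k, k = 2 * N / M := ⟨_, rfl⟩
  have hk2 : 2 * N < (k + 1) * M := by
    have h1 : 2 * N < M * (2 * N / M + 1) := Nat.lt_mul_div_succ (2 * N) (by omega)
    rw [hk0, mul_comm (2 * N / M + 1) M]
    exact h1
  have hs : ∀ (k' u s₁ s₂ : ℕ) (_ : 1 ≤ k') (Ω : Type) [Fintype Ω] (p : Ω → ℝ)
      (D : Ω → KeyDS k' u w s₁ s₂), ∑ ω, p ω = 1 → 1 ≤ s₁ ∧ 1 ≤ s₂ := by
    intro k' u s₁ s₂ hk' Ω _ p D hp1
    have hne : Nonempty Ω := by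
      by_contra hno
      rw [not_nonempty_iff] at hno
      rw [Finset.univ_eq_empty, Finset.sum_empty] at hp1
      exact zero_ne_one hp1
    obtain ⟨ω⟩ := hne
    have h1 := ((D ω).rowKey ⟨0, hk'⟩ (fun _ => ∅)).2
    have h2 := ((D ω).colKey ⟨0, hk'⟩ (fun _ => ∅)).2
    omega
  rcases Nat.eq_zero_or_pos k with h0 | h0
  · refine ⟨1, 0, Nat.zero_le _, ?_⟩
    intro s₁ s₂ Ω _ p D h
    obtain ⟨hs₁, hs₂⟩ := hs 1 0 s₁ s₂ le_rfl Ω p D h.2.1
    exact numer3 w (b + l) m M k s₁ s₂ N hw hm hM hk2 (by rw [h0]; exact Nat.zero_le _)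
      (by rw [h0]; exact Nat.zero_le _) hs₁ hs₂
  · refine ⟨k, M ^ 2 / 8, (M_sq w (b + l) m M hm hM).le, ?_⟩
    have hkM : k * M ≤ 2 * N := by
      rw [hk0]
      exact Nat.div_mul_le_self _ _
    have hkl : k ≤ 2 ^ l := by
      have h1 : k ≤ N := by
        have h2 : k * 2 ≤ k * M := Nat.mul_le_mul_left _ hM1
        omega
      rw [hl]
      exact h1.trans (Nat.lt_pow_succ_log_self (by norm_num) N).le
    intro s₁ s₂ Ω _ p D h
    obtain ⟨hs₁, hs₂⟩ := hs k _ s₁ s₂ h0 Ω p D h.2.1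
    exact numer3 w (b + l) m M k s₁ s₂ N hw hm hM hk2
      (rows hA w b l m M k N s₁ s₂ hw hb hm hM hkl h0 hkM Ω p D h)
      (rows hA w b l m M k N s₂ s₁ hw hb hm hM hkl h0 hkM Ω p (fun ω => (D ω).swap) h.swap)
      hs₁ hs₂

end Pool.Agent.Y516.OJ
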