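import Pool.Agent.Y516.OJ.SumFin
import Pool.Agent.Y516.OJ.KeyFin
import Pool.Agent.Y516.OJ.Ad2
import Pool.Agent.Y516.OJ.AdDefs

set_option autoImplicit false

/-!
# One probe to a joint cell with an address which depends on one side
-/

namespace Pool.Agent.Y516.OJ

open Finset

/-- **Master theorem** for addresses which depend on the first side (or on no side, `l = 0`). -/
theorem master3 (core : CoreStm) (hA : AdStm2) (w b l m M k s N : ℕ) (hw : 1 ≤ w) (hb : 1 ≤ b)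
    (hm : m = 4000 * w) (hM : M = 10000 * (b + l) * m) (hN : k * M ≤ 2 * N) (Ω : Type) [Fintype Ω]
    (p : Ω → ℝ) (hp : ∀ ω, 0 ≤ p ω) (hp1 : ∑ ω, p ω = 1)
    (J : Ω → Fam (M ^ 2 / 8) k → Fam (M ^ 2 / 8) k → Fin s → Fin (2 ^ w))
    (addr : Ω → Fin k × Fin k → Fam (M ^ 2 / 8) k → Fin s)
    (query : Ω → Fin k × Fin k → Fin (2 ^ w) → Prot (Fam (M ^ 2 / 8) k) (Fam (M ^ 2 / 8) k))
    (hl : k ^ 2 ≤ 2 ^ l ∨ ∀ ω d X X', addr ω d X = addr ω d X')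
    (hq : ∀ ω d v, (query ω d v).depth ≤ b)
    (h : ∀ X Y, tot X + tot Y ≤ N → ∀ d, 1 - 1 / (2 * 10 ^ 6) ≤
      ∑ ω, p ω * ind ((query ω d (J ω X Y (addr ω d X))).run X Y = true ↔ ¬ Disj X Y d)) :
    k ^ 2 ≤ 10 * m * s := by
  rcases Nat.eq_zero_or_pos k with hk0 | hk0
  · rw [hk0]
    exact Nat.zero_le _
  rcases hl with hl | hl
  · obtain ⟨ω, hω⟩ := avg (ι := Fin k × Fin k) w (b + l) m M k N hw (by omega) hm hM hk0 hN Ω p hp
      hp1 (fun ω X Y d => ((query ω d (J ω X Y (addr ω d X))).run X Y = true ↔ ¬ Disj X Y d)) h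
    have hc : Fintype.card (Fin k × Fin k) = k ^ 2 := by
      rw [Fintype.card_prod, Fintype.card_fin]
      ring
    have hc' : (univ : Finset (Fin k × Fin k)).card = k ^ 2 := by
      rw [Finset.card_univ, hc]
    have h1 := hA w b l m M k s hw hb hm hM univ (by rw [hc']; exact hl) (J ω) (addr ω) (query ω)
      (hq ω) (by rw [hc']; rw [hc] at hω; exact hω)
    rw [hc'] at h1
    exact h1
  · have hMpos : 1 ≤ k := hk0
    have h1 := master2 core w (b + l) m M k s N hw (by omega) hm hM hN Ω p hp hp1 J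
      (fun ω d => addr ω d (fun _ _ => false)) query (fun ω d v => (hq ω d v).trans (by omega))
      (by
        intro X Y hXY d
        refine (h X Y hXY d).trans (le_of_eq ?_)
        refine Finset.sum_congr rfl fun ω _ => ?_
        rw [hl ω d X (fun _ _ => false)])
    have h2 : 2 * m * s ≤ 10 * m * s := Nat.mul_le_mul_right _ (Nat.mul_le_mul_right _ (by norm_num))
    exact h1.trans h2

theorem numer4 (w b m M k s N : ℕ) (hw : 1 ≤ w) (hm : m = 4000 * w) (hM : M = 10000 * b * m)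
    (hN : 2 * N < (k + 1) * M) (hk : k ^ 2 ≤ 10 * m * s) (hs : 1 ≤ s) :
    N ^ 2 ≤ 10 ^ 20 * b ^ 2 * w ^ 3 * s := by
  have hM2 : M ^ 2 = 16 * 10 ^ 14 * (b ^ 2 * w ^ 2) := by rw [hM, hm]; ring
  have h5 : b ^ 2 * w ^ 2 ≤ b ^ 2 * w ^ 3 * s := by
    calc b ^ 2 * w ^ 2 = b ^ 2 * w ^ 2 * 1 := by ring
      _ ≤ b ^ 2 * w ^ 2 * (w * s) := Nat.mul_le_mul_left _ (Nat.mul_pos hw hs)
      _ = b ^ 2 * w ^ 3 * s := by ring
  rcases Nat.eq_zero_or_pos k with h0 | h0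
  · subst h0
    calc N ^ 2 ≤ M ^ 2 := Nat.pow_le_pow_left (by omega) 2
      _ = 16 * 10 ^ 14 * (b ^ 2 * w ^ 2) := hM2
      _ ≤ 10 ^ 20 * (b ^ 2 * w ^ 3 * s) := Nat.mul_le_mul (by norm_num) h5
      _ = _ := by ring
  · have h1 : N ≤ k * M := by
      have h2 : (k + 1) * M ≤ (2 * k) * M := Nat.mul_le_mul_right _ (by omega)
      have h3 : (2 * k) * M = 2 * (k * M) := by ring
      omega
    calc N ^ 2 ≤ (k * M) ^ 2 := Nat.pow_le_pow_left h1 2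
      _ = M ^ 2 * k ^ 2 := by ring
      _ ≤ M ^ 2 * (10 * m * s) := Nat.mul_le_mul_left _ hk
      _ = 64 * 10 ^ 18 * (b ^ 2 * w ^ 3 * s) := by rw [hM2, hm]; ring
      _ ≤ 10 ^ 20 * (b ^ 2 * w ^ 3 * s) := Nat.mul_le_mul_right _ (by norm_num)
      _ = _ := by ring

theorem M_pos (w b m M : ℕ) (hw : 1 ≤ w) (hb : 1 ≤ b) (hm : m = 4000 * w)
    (hM : M = 10000 * b * m) : 2 ≤ M := by
  rw [hM, hm]
  have h1 : 1 ≤ b * w := Nat.mul_pos (by omega) hw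
  have h2 : 10000 * b * (4000 * w) = 4 * 10 ^ 7 * (b * w) := by ring
  omega

theorem k_bounds {N M k : ℕ} (hM : 2 ≤ M) (hk : k = 2 * N / M) :
    k * M ≤ 2 * N ∧ 2 * N < (k + 1) * M ∧ k ≤ N := by
  have h1 : k * M ≤ 2 * N := by
    rw [hk]
    exact Nat.div_mul_le_self _ _
  refine ⟨h1, ?_, ?_⟩
  · have h1 : 2 * N < M * (2 * N / M + 1) := Nat.lt_mul_div_succ (2 * N) (by omega)
    rw [hk, mul_comm (2 * N / M + 1) M]
    exact h1
  · have h2 : k * 2 ≤ k * M := Nat.mul_le_mul_left _ hM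
    omega

/-- **Main theorem** for 3SUM-Indexing, with addresses which depend on the first array. -/
theorem sum_ad (core : CoreStm) (hA : AdStm2) (n w b l s : ℕ) (hw : 1 ≤ w) (hb : 1 ≤ b) (Ω : Type)
    [Fintype Ω] (p : Ω → ℝ) (D : Ω → SumADS n w s)
    (hl : n ^ 2 ≤ 2 ^ l ∨ ∀ ω z A A', (D ω).addr z A = (D ω).addr z A') (h : SolvesSumA b p D) :
    n ^ 2 ≤ 10 ^ 20 * (b + l) ^ 2 * w ^ 3 * s := by
  obtain ⟨hp, hp1, hd, hgood⟩ := h
  obtain ⟨m, hm⟩ : ∃ m, m = 4000 * w := ⟨_, rfl⟩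
  obtain ⟨M, hM⟩ : ∃ M, M = 10000 * (b + l) * m := ⟨_, rfl⟩
  have hM1 := M_pos w (b + l) m M hw (by omega) hm hM
  have hs : 1 ≤ s := by
    by_contra hs
    have hs0 : s = 0 := by omega
    subst hs0
    have : IsEmpty Ω := ⟨fun ω => ((D ω).addr 0 (fun _ => 0)).elim0⟩
    rw [Finset.univ_eq_empty, Finset.sum_empty] at hp1
    exact zero_ne_one hp1
  have hu : 1 ≤ M ^ 2 / 8 := by
    rw [M_sq w (b + l) m M hm hM]
    have h1 : 1 ≤ (b + l) ^ 2 * w ^ 2 := Nat.mul_pos (Nat.pow_pos (by omega)) (Nat.pow_pos hw)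
    have h2 : 2 * 10 ^ 14 * (b + l) ^ 2 * w ^ 2 = 2 * 10 ^ 14 * ((b + l) ^ 2 * w ^ 2) := by ring
    omega
  obtain ⟨k, hk0⟩ : ∃ k, k = 2 * n / M := ⟨_, rfl⟩
  obtain ⟨hkM, hk2, hkn⟩ := k_bounds hM1 hk0
  have hk : 2 * (M ^ 2 / 8) * (k * k) ≤ n ^ 2 := by
    have h1 : M ^ 2 / 8 * 8 ≤ M ^ 2 := Nat.div_mul_le_self _ _
    have h2 : M ^ 2 / 8 * 8 * (k * k) ≤ M ^ 2 * (k * k) := Nat.mul_le_mul_right _ h1
    have h3 : M ^ 2 * (k * k) = (k * M) ^ 2 := by ring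
    have h4 : (k * M) ^ 2 ≤ (2 * n) ^ 2 := Nat.pow_le_pow_left hkM 2
    have h5 : (2 * n) ^ 2 = 4 * n ^ 2 := by ring
    have h6 : M ^ 2 / 8 * 8 * (k * k) = 4 * (2 * (M ^ 2 / 8) * (k * k)) := by ring
    omega
  refine numer4 w (b + l) m M k s n hw hm hM hk2 ?_ hs
  refine master3 core hA w b l m M k s n hw hb hm hM hkM Ω p hp hp1
    (fun ω X Y c => (D ω).cell (toArr n (n ^ 2) (SA X)) (toArr n (n ^ 2) (SB Y)) c)
    (fun ω d X => (D ω).addr (zz (M ^ 2 / 8) k d.1 d.2) (toArr n (n ^ 2) (SA X)))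
    (fun ω d v => ((D ω).query (zz (M ^ 2 / 8) k d.1 d.2) v).comap
      (fun X => toArr n (n ^ 2) (SA X)) (fun Y => toArr n (n ^ 2) (SB Y)))
    ?_ (fun ω d v => by rw [Prot.depth_comap]; exact hd _ _ _) ?_
  · rcases hl with hl | hl
    · exact Or.inl ((Nat.pow_le_pow_left hkn 2).trans hl)
    · exact Or.inr fun ω d X X' => hl ω _ _ _
  intro X Y hXY d
  refine (hgood (toArr n (n ^ 2) (SA X)) (toArr n (n ^ 2) (SB Y)) (arrA_le hk X) (arrB_le hk Y)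
    (zz (M ^ 2 / 8) k d.1 d.2) (zz_lt hu hk _ _)).trans (le_of_eq ?_)
  refine Finset.sum_congr rfl fun ω _ => ?_
  rw [sum_iff hu hk X Y (by omega) (by omega) d.1 d.2, Prot.run_comap]
  rfl

/-- **Main theorem** for set intersection, with addresses which depend on the first half. -/
theorem pair_ad (core : CoreStm) (hA : AdStm2) (N w b l : ℕ) (hw : 1 ≤ w) (hb : 1 ≤ b) :
    ∃ k u : ℕ, u ≤ 2 * 10 ^ 14 * (b + l) ^ 2 * w ^ 2 ∧
      ∀ (s : ℕ) (Ω : Type) [Fintype Ω] (p : Ω → ℝ) (D : Ω → PairADS k u w s),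
        (N ^ 2 ≤ 2 ^ l ∨ ∀ ω i j F F', (D ω).addr i j F = (D ω).addr i j F') →
        SolvesPairA b N p D → N ^ 2 ≤ 10 ^ 20 * (b + l) ^ 2 * w ^ 3 * s := by
  obtain ⟨m, hm⟩ : ∃ m, m = 4000 * w := ⟨_, rfl⟩
  obtain ⟨M, hM⟩ : ∃ M, M = 10000 * (b + l) * m := ⟨_, rfl⟩
  have hM1 := M_pos w (b + l) m M hw (by omega) hm hM
  obtain ⟨k, hk0⟩ : ∃ k, k = 2 * N / M := ⟨_, rfl⟩
  obtain ⟨hkM, hk2, hkn⟩ := k_bounds hM1 hk0
  have hs : ∀ (k' u s : ℕ) (_ : 1 ≤ k') (Ω : Type) [Fintype Ω] (p : Ω → ℝ)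
      (D : Ω → PairADS k' u w s), ∑ ω, p ω = 1 → 1 ≤ s := by
    intro k' u s hk' Ω _ p D hp1
    have hne : Nonempty Ω := by
      by_contra hno
      rw [not_nonempty_iff] at hno
      rw [Finset.univ_eq_empty, Finset.sum_empty] at hp1
      exact zero_ne_one hp1
    obtain ⟨ω⟩ := hne
    have h1 := ((D ω).addr ⟨0, hk'⟩ ⟨0, hk'⟩ (fun _ => ∅)).2
    omega
  rcases Nat.eq_zero_or_pos k with h0 | h0
  · refine ⟨1, 0, Nat.zero_le _, ?_⟩
    intro s Ω _ p D _ h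
    exact numer4 w (b + l) m M k s N hw hm hM hk2 (by rw [h0]; exact Nat.zero_le _)
      (hs 1 0 s le_rfl Ω p D h.2.1)
  · refine ⟨k, M ^ 2 / 8, (M_sq w (b + l) m M hm hM).le, ?_⟩
    intro s Ω _ p D hl h
    have hs1 := hs k _ s h0 Ω p D h.2.1
    obtain ⟨hp, hp1, hd, hgood⟩ := h
    refine numer4 w (b + l) m M k s N hw hm hM hk2 ?_ hs1
    refine master3 core hA w b l m M k s N hw hb hm hM hkM Ω p hp hp1
      (fun ω X Y c => (D ω).cell (sets X) (sets Y) c)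
      (fun ω d X => (D ω).addr d.1 d.2 (sets X))
      (fun ω d v => ((D ω).query d.1 d.2 v).comap sets sets)
      ?_ (fun ω d v => by rw [Prot.depth_comap]; exact hd _ _ _ _) ?_
    · rcases hl with hl | hl
      · exact Or.inl ((Nat.pow_le_pow_left hkn 2).trans hl)
      · exact Or.inr fun ω d X X' => hl ω _ _ _ _
    intro X Y hXY d
    refine (hgood (sets X) (sets Y) (by rw [sum_sets, sum_sets]; exact hXY) d.1 d.2).trans
      (le_of_eq ?_)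
    refine Finset.sum_congr rfl fun ω _ => ?_
    rw [sets_iff X Y d.1 d.2, Prot.run_comap]
    rfl

end Pool.Agent.Y516.OJ
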