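import Pool.Agent.Y317.OJ.Norm
import Pool.Agent.Y147.OJ.One
import Pool.Agent.Y459.OJ.Ten
import Pool.Agent.Y836.OJ.ELT
import Pool.Agent.Y689.OJ.Corr
import Pool.Agent.Y606.OJ.Leaf
import Pool.Agent.Y85.OJ.Ub
import Pool.Agent.Y492.OJ.Par
import Pool.Agent.Y502.OJ.Dp
import Pool.Agent.Y759.OJ.Core

set_option autoImplicit false

/-!
# One joint probe: the core statement
-/

namespace Pool.Agent.Y516.OJ

theorem corrupt : CorrStm :=
  Pool.Agent.Y689.OJ.corr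
    (Pool.Agent.Y836.OJ.elt (Pool.Agent.Y147.OJ.one Pool.Agent.Y317.OJ.nrm))
    Pool.Agent.Y459.OJ.Ten.ten

/-- **Core theorem.** -/
theorem coreThm : CoreStm :=
  Pool.Agent.Y759.OJ.core
    (Pool.Agent.Y502.OJ.dp
      (Pool.Agent.Y85.OJ.ub corrupt Pool.Agent.Y606.OJ.Leaf.leaf Pool.Agent.Y606.OJ.Leaf.hol)
      Pool.Agent.Y492.OJ.par)

end Pool.Agent.Y516.OJ
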