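import Pool.Agent.Y516.OJ.All
import Pool.Agent.Y516.OJ.AdFin

set_option autoImplicit false

/-!
# One joint probe: the theorems without hypotheses
-/

namespace Pool.Agent.Y516.OJ

theorem ub2Thm : UB2Stm := ub2 corrupt Pool.Agent.Y606.OJ.Leaf.leaf

theorem adThm : AdStm := ad ub2Thm Pool.Agent.Y606.OJ.Leaf.hol Pool.Agent.Y492.OJ.par

theorem adThm2 : AdStm2 := ad2 ub2Thm Pool.Agent.Y606.OJ.Leaf.hol Pool.Agent.Y492.OJ.par

end Pool.Agent.Y516.OJ
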