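import Mathlib

set_option autoImplicit false

/-!
# One joint probe: definitions and statements of the lemmas
-/

namespace Pool.Agent.Y516.OJ

open Finset

/-- A deterministic communication protocol with a yes/no output: at every node one of the two
players sends one bit, which is an arbitrary function of his input. -/
inductive Prot (A B : Type) : Type
  | out (a : Bool) : Prot A B
  | left (f : A → Bool) (p q : Prot A B) : Prot A B
  | right (g : B → Bool) (p q : Prot A B) : Prot A B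

namespace Prot

variable {A B : Type}

/-- the output on the inputs `x`, `y` -/
def run : Prot A B → A → B → Bool
  | out a, _, _ => a
  | left f p q, x, y => if f x then p.run x y else q.run x y
  | right g p q, x, y => if g y then p.run x y else q.run x y

/-- the maximal number of bits sent -/
def depth : Prot A B → ℕ
  | out _ => 0
  | left _ p q => max p.depth q.depth + 1
  | right _ p q => max p.depth q.depth + 1

/-- change of the inputs -/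
def comap {A' B' : Type} (φ : A' → A) (ψ : B' → B) : Prot A B → Prot A' B'
  | out a => out a
  | left f p q => left (fun x => f (φ x)) (p.comap φ ψ) (q.comap φ ψ)
  | right g p q => right (fun y => g (ψ y)) (p.comap φ ψ) (q.comap φ ψ)

end Prot

/-- indicator of a proposition -/
noncomputable def ind (P : Prop) : ℝ := open Classical in if P then 1 else 0

/-- The set number `i` contains the element `e` iff `X e i = true`. -/
abbrev Fam (u k : ℕ) : Type := Fin u → Fin k → Bool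

/-- the sets number `d.1` of `X` and number `d.2` of `Y` are disjoint -/
def Disj {u k : ℕ} (X Y : Fam u k) (d : Fin k × Fin k) : Prop :=
  ∀ e, ¬ (X e d.1 = true ∧ Y e d.2 = true)

/-- the probability of `x`, if the bits are independent and `true` with probability `α` -/
noncomputable def wt (α : ℝ) {k : ℕ} (x : Fin k → Bool) : ℝ := ∏ i, if x i = true then α else 1 - α

/-- the probability of `X` -/
noncomputable def Wt (α : ℝ) {u k : ℕ} (X : Fam u k) : ℝ := ∏ e, wt α (X e)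

/-- expectation of `h X Y` -/
noncomputable def EE (α : ℝ) {u k : ℕ} (h : Fam u k → Fam u k → ℝ) : ℝ :=
  ∑ X, ∑ Y, Wt α X * Wt α Y * h X Y

/-! ### Elementary inequalities -/

/-- (GAP) Bernoulli's inequality with a gap. -/
def GapStm : Prop := ∀ t δ : ℝ, 0 ≤ t → 0 < δ → δ ≤ 1 →
  1 + (1 + δ) * (t - 1) ≤ t ^ (1 + δ) ∧
  (t ≤ 1 / 4 → 1 + (1 + δ) * (t - 1) + δ / 4 ≤ t ^ (1 + δ))

/-- (NORM) If a function of mean `1` is small on the average on `n` disjoint events of probability at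
least `π₀`, then its norm is larger than `1`. -/
def NormStm : Prop := ∀ (A I : Type) [Fintype A] [DecidableEq A] [DecidableEq I]
  (P f : A → ℝ) (δ π₀ : ℝ) (bad : Finset I) (ev : I → Finset A),
  (∀ a, 0 ≤ P a) → ∑ a, P a = 1 → (∀ a, 0 ≤ f a) → ∑ a, P a * f a = 1 →
  0 < δ → δ ≤ 1 → 0 < π₀ →
  (∀ i ∈ bad, ∀ j ∈ bad, i ≠ j → Disjoint (ev i) (ev j)) →
  (∀ i ∈ bad, π₀ ≤ ∑ a ∈ ev i, P a) →
  (∀ i ∈ bad, ∑ a ∈ ev i, P a * f a ≤ (∑ a ∈ ev i, P a) / 4) →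
  1 + δ * π₀ * bad.card / 12 ≤ (∑ a, P a * f a ^ (1 + δ)) ^ (1 / (1 + δ))

/-- (ONE) The inequality for one element of the universe. -/
def OneStm : Prop := ∀ (A B I J : Type) [Fintype A] [Fintype B] [DecidableEq A] [DecidableEq B]
  [DecidableEq I] [DecidableEq J]
  (P f : A → ℝ) (Q g : B → ℝ) (K : A → B → ℝ) (δ π₀ : ℝ) (Δ : ℕ) (S : Finset (I × J))
  (ev : I → Finset A) (ew : J → Finset B),
  (∀ a, 0 ≤ P a) → ∑ a, P a = 1 → (∀ b, 0 ≤ Q b) → ∑ b, Q b = 1 →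
  (∀ a, 0 ≤ f a) → (∀ b, 0 ≤ g b) → (∀ a b, 0 ≤ K a b) → (∀ a b, K a b ≤ 1) →
  0 < δ → δ ≤ 1 → 0 < π₀ → 2 * π₀ * Δ ≤ δ → π₀ ^ 2 * S.card ≤ 1 →
  (∀ i, (S.filter fun d => d.1 = i).card ≤ Δ) → (∀ j, (S.filter fun d => d.2 = j).card ≤ Δ) →
  (∀ i ∈ S.image Prod.fst, ∀ i' ∈ S.image Prod.fst, i ≠ i' → Disjoint (ev i) (ev i')) →
  (∀ j ∈ S.image Prod.snd, ∀ j' ∈ S.image Prod.snd, j ≠ j' → Disjoint (ew j) (ew j')) →
  (∀ i ∈ S.image Prod.fst, π₀ ≤ ∑ a ∈ ev i, P a) →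
  (∀ j ∈ S.image Prod.snd, π₀ ≤ ∑ b ∈ ew j, Q b) →
  (∀ d ∈ S, ∀ a ∈ ev d.1, ∀ b ∈ ew d.2, K a b = 0) →
  ∑ a, ∑ b, P a * Q b * (f a * g b * K a b) ≤
    (1 - π₀ ^ 2 * S.card / 32) *
      ((∑ a, P a * f a ^ (1 + δ)) ^ (1 / (1 + δ)) * (∑ b, Q b * g b ^ (1 + δ)) ^ (1 / (1 + δ)))

/-- (TEN) Tensor powers. -/
def TenStm : Prop := ∀ (A B : Type) [Fintype A] [Fintype B] (P : A → ℝ) (Q : B → ℝ)
  (K : A → B → ℝ) (p c : ℝ), (∀ a, 0 ≤ P a) → (∀ b, 0 ≤ Q b) → (∀ a b, 0 ≤ K a b) → 1 ≤ p →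
  0 ≤ c →
  (∀ (f : A → ℝ) (g : B → ℝ), (∀ a, 0 ≤ f a) → (∀ b, 0 ≤ g b) →
    ∑ a, ∑ b, P a * Q b * (f a * g b * K a b) ≤
      c * ((∑ a, P a * f a ^ p) ^ (1 / p) * (∑ b, Q b * g b ^ p) ^ (1 / p))) →
  ∀ (u : ℕ) (f : (Fin u → A) → ℝ) (g : (Fin u → B) → ℝ), (∀ x, 0 ≤ f x) → (∀ y, 0 ≤ g y) →
    ∑ x, ∑ y, (∏ e, P (x e)) * (∏ e, Q (y e)) * (f x * g y * ∏ e, K (x e) (y e)) ≤
      c ^ u * ((∑ x, (∏ e, P (x e)) * f x ^ p) ^ (1 / p) *
        (∑ y, (∏ e, Q (y e)) * g y ^ p) ^ (1 / p))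

/-! ### The corruption inequality -/

/-- (ELT) The inequality of one element for independent bits. -/
def EltStm : Prop := ∀ (k m : ℕ) (α : ℝ) (S : Finset (Fin k × Fin k)) (f g : (Fin k → Bool) → ℝ),
  0 < α → 10 * m * α ≤ 1 → 1 ≤ m → S.card ≤ m → (∀ x, 0 ≤ f x) → (∀ y, 0 ≤ g y) →
  ∑ x, ∑ y, wt α x * wt α y * (f x * g y * ind (∀ d ∈ S, ¬ (x d.1 = true ∧ y d.2 = true))) ≤
    (1 - α ^ 2 * S.card / 40) *
      ((∑ x, wt α x * f x ^ (1 + 2 * m * α)) ^ (1 / (1 + 2 * m * α)) *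
        (∑ y, wt α y * g y ^ (1 + 2 * m * α)) ^ (1 / (1 + 2 * m * α)))

/-- (CORR) Corruption: a rectangle contains few pairs of families for which all pairs of sets in `S`
are disjoint. -/
def CorrStm : Prop := ∀ (u k m : ℕ) (α : ℝ) (S : Finset (Fin k × Fin k)) (F G : Fam u k → Bool),
  0 < α → 10 * m * α ≤ 1 → 1 ≤ m → S.card ≤ m →
  EE α (fun X Y => ind (F X = true) * ind (G Y = true) * ind (∀ d ∈ S, Disj X Y d)) ≤
    (1 - α ^ 2 * S.card / 40) ^ u *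
      (EE α fun X Y => ind (F X = true) * ind (G Y = true)) ^ (1 / (1 + 2 * m * α))

/-! ### Protocols -/

/-- (LEAF) A protocol of depth `b` is constant on the rectangles of a partition into at most `2 ^ b`
rectangles. -/
def LeafStm : Prop := ∀ (A B : Type) (p : Prot A B) (b : ℕ), p.depth ≤ b →
  ∃ (F : Fin (2 ^ b) → A → Bool) (G : Fin (2 ^ b) → B → Bool) (a : Fin (2 ^ b) → Bool),
    ∀ x y, (∃! l, F l x = true ∧ G l y = true) ∧
      ∀ l, F l x = true → G l y = true → p.run x y = a l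

/-- (HOL) -/
def HolStm : Prop := ∀ (R : Type) [Fintype R] (P : R → ℝ) (δ : ℝ), 0 < δ → (∀ r, 0 ≤ P r) →
  ∑ r, P r ≤ 1 → ∑ r, P r ^ (1 / (1 + δ)) ≤ (Fintype.card R : ℝ) ^ δ

open Classical in
/-- the number of pairs in `D` for which the protocol is wrong (the output `true` means: not
disjoint) -/
noncomputable def nErr {u k : ℕ} (D : Finset (Fin k × Fin k))
    (p : Fin k × Fin k → Prot (Fam u k) (Fam u k)) (X Y : Fam u k) : ℕ :=
  (D.filter fun d => ¬ ((p d).run X Y = true ↔ ¬ Disj X Y d)).card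

open Classical in
/-- the number of pairs in `D` which are not disjoint -/
noncomputable def nInt {u k : ℕ} (D : Finset (Fin k × Fin k)) (X Y : Fam u k) : ℕ :=
  (D.filter fun d => ¬ Disj X Y d).card

/-- (UB) Few errors on the pairs in `D` have a small probability, for fixed protocols. -/
def UBStm : Prop := ∀ (u k m b r : ℕ) (α ρ : ℝ) (D : Finset (Fin k × Fin k))
  (p : Fin k × Fin k → Prot (Fam u k) (Fam u k)),
  0 < α → 10 * m * α ≤ 1 → 1 ≤ m → D.card = m → (∀ d, (p d).depth ≤ b) → 0 ≤ ρ → ρ ≤ 1 →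
  (∀ n : ℕ, n ≤ m → (1 - α ^ 2 * n / 40) ^ u ≤ ρ ^ n) →
  EE α (fun X Y => ind (nErr D p X Y ≤ r ∧ 2 * nInt D X Y ≤ m)) ≤
    2 ^ r * ((1 + ρ) / 2) ^ ((m : ℝ) / 2 - r) * (2 : ℝ) ^ (b * m * (2 * m * α))

/-- (PAR) The numerical inequality. -/
def ParStm : Prop := ∀ w b m M : ℕ, 1 ≤ w → 1 ≤ b → m = 4000 * w → M = 10000 * b * m →
  (∀ n : ℕ, n ≤ m → (1 - (1 / (M : ℝ)) ^ 2 * n / 40) ^ (M ^ 2 / 8) ≤ (399 / 400 : ℝ) ^ n) ∧
  (2 : ℝ) ^ (m / 10000 : ℕ) * ((1 + 399 / 400) / 2) ^ ((m : ℝ) / 2 - (m / 10000 : ℕ)) *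
    (2 : ℝ) ^ ((b : ℝ) * m * (2 * m * (1 / (M : ℝ)))) < (5 / 8) / 2 ^ w

/-- the answer to the query `d` is wrong -/
def Wrong {u k s w : ℕ} (J : Fam u k → Fam u k → Fin s → Fin (2 ^ w)) (addr : Fin k × Fin k → Fin s)
    (query : Fin k × Fin k → Fin (2 ^ w) → Prot (Fam u k) (Fam u k)) (X Y : Fam u k)
    (d : Fin k × Fin k) : Prop :=
  ¬ ((query d (J X Y (addr d))).run X Y = true ↔ ¬ Disj X Y d)

/-- (DP) There are no `m` pairs which read the same cell and have small error probabilities. -/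
def DPStm : Prop := ∀ w b m M k s : ℕ, 1 ≤ w → 1 ≤ b → m = 4000 * w → M = 10000 * b * m →
  ∀ (J : Fam (M ^ 2 / 8) k → Fam (M ^ 2 / 8) k → Fin s → Fin (2 ^ w))
    (addr : Fin k × Fin k → Fin s)
    (query : Fin k × Fin k → Fin (2 ^ w) → Prot (Fam (M ^ 2 / 8) k) (Fam (M ^ 2 / 8) k))
    (D : Finset (Fin k × Fin k)) (c : Fin s),
  (∀ d v, (query d v).depth ≤ b) → D.card = m → (∀ d ∈ D, addr d = c) →
  ¬ (∀ d ∈ D, EE (1 / (M : ℝ)) (fun X Y => ind (Wrong J addr query X Y d)) ≤ 2 / 10 ^ 6)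

/-- (CORE) -/
def CoreStm : Prop := ∀ w b m M k s : ℕ, 1 ≤ w → 1 ≤ b → m = 4000 * w → M = 10000 * b * m →
  ∀ (J : Fam (M ^ 2 / 8) k → Fam (M ^ 2 / 8) k → Fin s → Fin (2 ^ w))
    (addr : Fin k × Fin k → Fin s)
    (query : Fin k × Fin k → Fin (2 ^ w) → Prot (Fam (M ^ 2 / 8) k) (Fam (M ^ 2 / 8) k)),
  (∀ d v, (query d v).depth ≤ b) →
  ∑ d, EE (1 / (M : ℝ)) (fun X Y => ind (Wrong J addr query X Y d)) ≤ (k : ℝ) ^ 2 / 10 ^ 6 →
  k ^ 2 ≤ 2 * m * s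

end Pool.Agent.Y516.OJ
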