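import Pool.Agent.Y516.OJ.Stm

set_option autoImplicit false

/-!
# 3SUM-Indexing with one probe to a joint cell: definitions
-/

namespace Pool.Agent.Y516.OJ

open Finset

/-- A (deterministic) data structure for 3SUM-Indexing on two arrays of `n` numbers, with `s` cells
of `w` bits. Every cell may be an arbitrary function of both arrays. On the query `z` the cell
number `addr z` is read. Then the query is answered by a communication protocol, which may depend
on `z` and on the content of this cell, between a player who knows the first array and a player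
who knows the second array. -/
structure SumDS (n w s : ℕ) where
  /-- the contents of the cells -/
  cell : (Fin n → ℕ) → (Fin n → ℕ) → Fin s → Fin (2 ^ w)
  /-- the cell which is read on a query -/
  addr : ℕ → Fin s
  /-- the protocol which is used for a query and a content of the cell -/
  query : ℕ → Fin (2 ^ w) → Prot (Fin n → ℕ) (Fin n → ℕ)

/-- the answer to the query `z` on the arrays `A`, `B` -/
def SumDS.answer {n w s : ℕ} (D : SumDS n w s) (A B : Fin n → ℕ) (z : ℕ) : Bool :=
  (D.query z (D.cell A B (D.addr z))).run A B

/-- The random data structure `D` (which is `D ω` with probability `p ω`) answers, with protocols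
of at most `b` bits, every query `z < n ^ 2` (is `z` the sum of an entry of `A` and an entry of
`B`?) on all arrays with entries at most `n ^ 2` with error probability at most
`1 / (2 * 10 ^ 6)`. -/
def SolvesSum {n w s : ℕ} (b : ℕ) {Ω : Type} [Fintype Ω] (p : Ω → ℝ) (D : Ω → SumDS n w s) :
    Prop :=
  (∀ ω, 0 ≤ p ω) ∧ ∑ ω, p ω = 1 ∧ (∀ ω z v, ((D ω).query z v).depth ≤ b) ∧
    ∀ A B : Fin n → ℕ, (∀ i, A i ≤ n ^ 2) → (∀ j, B j ≤ n ^ 2) → ∀ z : ℕ, z < n ^ 2 →
      1 - 1 / (2 * 10 ^ 6) ≤ ∑ ω, p ω * ind ((D ω).answer A B z = true ↔ ∃ i j, A i + B j = z)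

end Pool.Agent.Y516.OJ
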