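import Pool.Agent.Y516.OJ.Tail
import Pool.Agent.Y516.OJ.SumDefs

set_option autoImplicit false

/-!
# 3SUM-Indexing with one probe to a joint cell: reduction to disjointness
-/

namespace Pool.Agent.Y516.OJ

open Finset

/-- an array which contains the elements of the set `S`, filled up with `d` -/
noncomputable def toArr (n d : ℕ) (S : Finset ℕ) (t : Fin n) : ℕ := S.toList.getD t d

theorem toArr_mem {n d : ℕ} {S : Finset ℕ} (h : S.card ≤ n) {v : ℕ} (hv : v ∈ S) :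
    ∃ t, toArr n d S t = v := by
  rw [← Finset.mem_toList] at hv
  obtain ⟨i, hi, h1⟩ := List.mem_iff_getElem.1 hv
  have h2 : i < n := by
    rw [Finset.length_toList] at hi
    omega
  refine ⟨⟨i, h2⟩, ?_⟩
  unfold toArr
  rw [List.getD_eq_getElem _ _ hi]
  exact h1

theorem toArr_of_ne {n d : ℕ} {S : Finset ℕ} {t : Fin n} (h : toArr n d S t ≠ d) :
    toArr n d S t ∈ S := by
  unfold toArr at h ⊢
  by_cases hi : (t : ℕ) < S.toList.length
  · rw [List.getD_eq_getElem _ _ hi, ← Finset.mem_toList]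
    exact List.getElem_mem hi
  · rw [List.getD_eq_default _ _ (by omega)] at h
    exact absurd rfl h

/-- the first set of numbers -/
def SA {u k : ℕ} (X : Fam u k) : Finset ℕ :=
  ((univ : Finset (Fin u × Fin k)).filter fun q => X q.1 q.2 = true).image
    fun q => 2 * u * q.2.val + q.1.val

/-- the second set of numbers -/
def SB {u k : ℕ} (Y : Fam u k) : Finset ℕ :=
  ((univ : Finset (Fin u × Fin k)).filter fun q => Y q.1 q.2 = true).image
    fun q => 2 * u * k * q.2.val + (u - 1 - q.1.val)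

variable {n u k : ℕ}

theorem tot_eq (X : Fam u k) :
    ((univ : Finset (Fin u × Fin k)).filter fun q => X q.1 q.2 = true).card = tot X := by
  unfold tot
  rw [Finset.card_filter, ← Finset.univ_product_univ, Finset.sum_product]

theorem SA_card (X : Fam u k) : (SA X).card ≤ tot X := by
  rw [← tot_eq]
  exact Finset.card_image_le

theorem SB_card (Y : Fam u k) : (SB Y).card ≤ tot Y := by
  rw [← tot_eq]
  exact Finset.card_image_le

theorem mem_SA {X : Fam u k} {a : ℕ} :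
    a ∈ SA X ↔ ∃ (i : Fin k) (e : Fin u), X e i = true ∧ a = 2 * u * i.val + e.val := by
  unfold SA
  rw [Finset.mem_image]
  constructor
  · rintro ⟨⟨e, i⟩, h, rfl⟩
    rw [Finset.mem_filter] at h
    exact ⟨i, e, h.2, rfl⟩
  · rintro ⟨i, e, h, rfl⟩
    exact ⟨(e, i), by rw [Finset.mem_filter]; exact ⟨Finset.mem_univ _, h⟩, rfl⟩

theorem mem_SB {Y : Fam u k} {a : ℕ} :
    a ∈ SB Y ↔ ∃ (i : Fin k) (e : Fin u), Y e i = true ∧
      a = 2 * u * k * i.val + (u - 1 - e.val) := by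
  unfold SB
  rw [Finset.mem_image]
  constructor
  · rintro ⟨⟨e, i⟩, h, rfl⟩
    rw [Finset.mem_filter] at h
    exact ⟨i, e, h.2, rfl⟩
  · rintro ⟨i, e, h, rfl⟩
    exact ⟨(e, i), by rw [Finset.mem_filter]; exact ⟨Finset.mem_univ _, h⟩, rfl⟩

/-- the query for the sets `i` and `j` -/
def zz (u k : ℕ) (i j : Fin k) : ℕ := 2 * u * (i.val + k * j.val) + (u - 1)

theorem zz_lt (hu : 1 ≤ u) (h : 2 * u * (k * k) ≤ n ^ 2) (i j : Fin k) : zz u k i j < n ^ 2 := by
  unfold zz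
  have hi := i.2
  have hj := j.2
  have h1 : i.val + k * j.val + 1 ≤ k * k := by
    have h2 : k * (j.val + 1) ≤ k * k := Nat.mul_le_mul_left _ hj
    have h3 : k * (j.val + 1) = k * j.val + k := by ring
    omega
  have h4 : 2 * u * (i.val + k * j.val + 1) ≤ 2 * u * (k * k) := Nat.mul_le_mul_left _ h1
  have h5 : 2 * u * (i.val + k * j.val + 1) = 2 * u * (i.val + k * j.val) + 2 * u := by ring
  omega

theorem sum_iff (hu : 1 ≤ u) (h : 2 * u * (k * k) ≤ n ^ 2) (X Y : Fam u k) (hX : tot X ≤ n)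
    (hY : tot Y ≤ n) (i j : Fin k) :
    (∃ t t', toArr n (n ^ 2) (SA X) t + toArr n (n ^ 2) (SB Y) t' = zz u k i j) ↔
      ¬ Disj X Y (i, j) := by
  constructor
  · rintro ⟨t, t', ht⟩
    have hz := zz_lt hu h i j
    obtain ⟨i', e, hX, h1⟩ := mem_SA.1 (toArr_of_ne (n := n) (d := n ^ 2) (S := SA X) (t := t)
      (by omega))
    obtain ⟨j', e', hY, h2⟩ := mem_SB.1 (toArr_of_ne (n := n) (d := n ^ 2) (S := SB Y) (t := t')
      (by omega))
    rw [h1, h2] at ht
    unfold zz at ht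
    have hu1 := e.2
    have hu' := e'.2
    have h1 : 2 * u * (i' + k * j') + (e.val + (u - 1 - e'.val)) =
        2 * u * (i + k * j) + (u - 1) := by
      rw [← ht]
      ring
    have h2 : e.val + (u - 1 - e'.val) < 2 * u := by omega
    have h3 : u - 1 < 2 * u := by omega
    have h4 : (2 * u * (i'.val + k * j'.val) + (e.val + (u - 1 - e'.val))) % (2 * u) =
        (2 * u * (i.val + k * j.val) + (u - 1)) % (2 * u) := by rw [h1]
    rw [Nat.mul_add_mod, Nat.mul_add_mod, Nat.mod_eq_of_lt h2, Nat.mod_eq_of_lt h3] at h4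
    have h5 : (2 * u * (i'.val + k * j'.val) + (e.val + (u - 1 - e'.val))) / (2 * u) =
        (2 * u * (i.val + k * j.val) + (u - 1)) / (2 * u) := by rw [h1]
    rw [Nat.mul_add_div (by omega), Nat.mul_add_div (by omega), Nat.div_eq_of_lt h2,
      Nat.div_eq_of_lt h3] at h5
    have h6 : (i'.val + k * j'.val) % k = (i.val + k * j.val) % k := by
      rw [show i'.val + k * j'.val = i.val + k * j.val by omega]
    rw [Nat.add_mul_mod_self_left, Nat.add_mul_mod_self_left, Nat.mod_eq_of_lt i'.2,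
      Nat.mod_eq_of_lt i.2] at h6
    have h7 : (i'.val + k * j'.val) / k = (i.val + k * j.val) / k := by
      rw [show i'.val + k * j'.val = i.val + k * j.val by omega]
    have hk : 0 < k := Nat.pos_of_ne_zero fun h0 => by subst h0; exact i.elim0
    rw [Nat.add_mul_div_left _ _ hk, Nat.add_mul_div_left _ _ hk, Nat.div_eq_of_lt i'.2,
      Nat.div_eq_of_lt i.2] at h7
    have hi : i' = i := Fin.ext h6
    have hj : j' = j := Fin.ext (by omega)
    have hee : e = e' := Fin.ext (by omega)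
    subst hi hj hee
    intro hD
    exact hD e ⟨hX, hY⟩
  · intro hD
    unfold Disj at hD
    push Not at hD
    obtain ⟨e, he, he'⟩ := hD
    obtain ⟨t, ht⟩ := toArr_mem (n := n) (d := n ^ 2) ((SA_card X).trans hX)
      (mem_SA.2 ⟨i, e, he, rfl⟩)
    obtain ⟨t', ht'⟩ := toArr_mem (n := n) (d := n ^ 2) ((SB_card Y).trans hY)
      (mem_SB.2 ⟨j, e, he', rfl⟩)
    refine ⟨t, t', ?_⟩
    rw [ht, ht']
    unfold zz
    have hu := e.2
    have h1 : e.val + (u - 1 - e.val) = u - 1 := by omega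
    calc 2 * u * i.val + e.val + (2 * u * k * j.val + (u - 1 - e.val))
        = 2 * u * (i.val + k * j.val) + (e.val + (u - 1 - e.val)) := by ring
      _ = _ := by rw [h1]

theorem arrA_le (h : 2 * u * (k * k) ≤ n ^ 2) (X : Fam u k) (t : Fin n) :
    toArr n (n ^ 2) (SA X) t ≤ n ^ 2 := by
  by_cases h0 : toArr n (n ^ 2) (SA X) t = n ^ 2
  · exact h0.le
  · obtain ⟨i, e, _, h1⟩ := mem_SA.1 (toArr_of_ne h0)
    rw [h1]
    have hi := i.2
    have he := e.2
    have h1 : i.val + 1 ≤ k * k := by nlinarith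
    have h4 : 2 * u * (i.val + 1) ≤ 2 * u * (k * k) := Nat.mul_le_mul_left _ h1
    have h5 : 2 * u * (i.val + 1) = 2 * u * i.val + 2 * u := by ring
    omega

theorem arrB_le (h : 2 * u * (k * k) ≤ n ^ 2) (X : Fam u k) (t : Fin n) :
    toArr n (n ^ 2) (SB X) t ≤ n ^ 2 := by
  by_cases h0 : toArr n (n ^ 2) (SB X) t = n ^ 2
  · exact h0.le
  · obtain ⟨i, e, _, h1⟩ := mem_SB.1 (toArr_of_ne h0)
    rw [h1]
    have hi := i.2
    have he := e.2
    have h1 : k * (i.val + 1) ≤ k * k := Nat.mul_le_mul_left _ hi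
    have h4 : 2 * u * (k * (i.val + 1)) ≤ 2 * u * (k * k) := Nat.mul_le_mul_left _ h1
    have h5 : 2 * u * (k * (i.val + 1)) = 2 * u * k * i.val + 2 * u * k := by ring
    have h9 : 2 * u * 1 ≤ 2 * u * k := Nat.mul_le_mul_left _ (by omega)
    omega

/-- **Main theorem** for 3SUM-Indexing. -/
theorem sum_main (core : CoreStm) (n w b s : ℕ) (hw : 1 ≤ w) (hb : 1 ≤ b) (Ω : Type) [Fintype Ω]
    (p : Ω → ℝ) (D : Ω → SumDS n w s) (h : SolvesSum b p D) :
    n ^ 2 ≤ 2 * 10 ^ 19 * b ^ 2 * w ^ 3 * s := by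
  obtain ⟨hp, hp1, hd, hgood⟩ := h
  obtain ⟨m, hm⟩ : ∃ m, m = 4000 * w := ⟨_, rfl⟩
  obtain ⟨M, hM⟩ : ∃ M, M = 10000 * b * m := ⟨_, rfl⟩
  have hM1 : 1 ≤ M := by
    rw [hM, hm]
    exact Nat.mul_pos (Nat.mul_pos (by norm_num) hb) (Nat.mul_pos (by norm_num) hw)
  have hs : 1 ≤ s := by
    by_contra hs
    have hs0 : s = 0 := by omega
    subst hs0
    have : IsEmpty Ω := ⟨fun ω => ((D ω).addr 0).elim0⟩
    rw [Finset.univ_eq_empty, Finset.sum_empty] at hp1
    exact zero_ne_one hp1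
  have hu : 1 ≤ M ^ 2 / 8 := by
    rw [M_sq w b m M hm hM]
    have h1 : 1 ≤ b ^ 2 * w ^ 2 := Nat.mul_pos (Nat.pow_pos hb) (Nat.pow_pos hw)
    have h2 : 2 * 10 ^ 14 * b ^ 2 * w ^ 2 = 2 * 10 ^ 14 * (b ^ 2 * w ^ 2) := by ring
    omega
  obtain ⟨k, hk0⟩ : ∃ k, k = 2 * n / M := ⟨_, rfl⟩
  have hk2 : 2 * n < (k + 1) * M := by
    have h1 : 2 * n < M * (2 * n / M + 1) := Nat.lt_mul_div_succ (2 * n) (by omega)
    rw [hk0, mul_comm (2 * n / M + 1) M]
    exact h1
  have hkM : k * M ≤ 2 * n := by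
    rw [hk0]
    exact Nat.div_mul_le_self _ _
  have hk : 2 * (M ^ 2 / 8) * (k * k) ≤ n ^ 2 := by
    have h1 : M ^ 2 / 8 * 8 ≤ M ^ 2 := Nat.div_mul_le_self _ _
    have h2 : M ^ 2 / 8 * 8 * (k * k) ≤ M ^ 2 * (k * k) := Nat.mul_le_mul_right _ h1
    have h3 : M ^ 2 * (k * k) = (k * M) ^ 2 := by ring
    have h4 : (k * M) ^ 2 ≤ (2 * n) ^ 2 := Nat.pow_le_pow_left hkM 2
    have h5 : (2 * n) ^ 2 = 4 * n ^ 2 := by ring
    have h6 : M ^ 2 / 8 * 8 * (k * k) = 4 * (2 * (M ^ 2 / 8) * (k * k)) := by ring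
    omega
  refine numer2 w b m M k s n hw hm hM hk2 ?_ hs
  refine master2 core w b m M k s n hw hb hm hM hkM Ω p hp hp1
    (fun ω X Y c => (D ω).cell (toArr n (n ^ 2) (SA X)) (toArr n (n ^ 2) (SB Y)) c)
    (fun ω d => (D ω).addr (zz (M ^ 2 / 8) k d.1 d.2))
    (fun ω d v => ((D ω).query (zz (M ^ 2 / 8) k d.1 d.2) v).comap
      (fun X => toArr n (n ^ 2) (SA X)) (fun Y => toArr n (n ^ 2) (SB Y)))
    (fun ω d v => by rw [Prot.depth_comap]; exact hd _ _ _) ?_
  intro X Y hXY d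
  refine (hgood (toArr n (n ^ 2) (SA X)) (toArr n (n ^ 2) (SB Y)) (arrA_le hk X) (arrB_le hk Y)
    (zz (M ^ 2 / 8) k d.1 d.2) (zz_lt hu hk _ _)).trans (le_of_eq ?_)
  refine Finset.sum_congr rfl fun ω _ => ?_
  rw [sum_iff hu hk X Y (by omega) (by omega) d.1 d.2, Prot.run_comap]
  rfl

end Pool.Agent.Y516.OJ
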