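import Pool.Agent.Y516.OJ.Fin

set_option autoImplicit false

/-!
# One joint probe: the total size of the families
-/

namespace Pool.Agent.Y516.OJ

open Finset

/-- the total size of a family -/
def tot {u k : ℕ} (X : Fam u k) : ℕ := ∑ e, ∑ i, if X e i = true then 1 else 0

theorem two_pow_tot {u k : ℕ} (X : Fam u k) :
    (2 : ℝ) ^ tot X = ∏ e, ∏ i, if X e i = true then (2 : ℝ) else 1 := by
  unfold tot
  rw [← Finset.prod_pow_eq_pow_sum]
  refine Finset.prod_congr rfl fun e _ => ?_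
  rw [← Finset.prod_pow_eq_pow_sum]
  refine Finset.prod_congr rfl fun i _ => ?_
  split <;> simp

theorem sum_wt_two (α : ℝ) (k : ℕ) :
    ∑ x : Fin k → Bool, wt α x * ∏ i, (if x i = true then (2 : ℝ) else 1) = (1 + α) ^ k := by
  have h := (Finset.prod_univ_sum (fun _ : Fin k => (univ : Finset Bool))
    (fun _ b => (if b = true then α else 1 - α) * (if b = true then (2 : ℝ) else 1))).symm
  rw [Fintype.piFinset_univ] at h
  unfold wt
  simp only [← Finset.prod_mul_distrib]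
  rw [h]
  simp
  ring

theorem sum_Wt_two (α : ℝ) (u k : ℕ) :
    ∑ X : Fam u k, Wt α X * 2 ^ tot X = (1 + α) ^ (u * k) := by
  have h := (Finset.prod_univ_sum (fun _ : Fin u => (univ : Finset (Fin k → Bool)))
    (fun _ x => wt α x * ∏ i, (if x i = true then (2 : ℝ) else 1))).symm
  rw [Fintype.piFinset_univ] at h
  have h2 : ∀ X : Fam u k, Wt α X * 2 ^ tot X =
      ∏ e, (wt α (X e) * ∏ i, (if X e i = true then (2 : ℝ) else 1)) := by
    intro X
    rw [two_pow_tot, Finset.prod_mul_distrib]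
    rfl
  rw [Finset.sum_congr rfl fun X _ => h2 X]
  rw [show (∑ X : Fam u k, ∏ e, (wt α (X e) * ∏ i, (if X e i = true then (2 : ℝ) else 1))) = _
    from h]
  simp only [sum_wt_two]
  rw [Finset.prod_const, Finset.card_univ, Fintype.card_fin, ← pow_mul, mul_comm k u]

theorem EE_two (α : ℝ) (u k : ℕ) :
    EE α (fun X Y : Fam u k => 2 ^ (tot X + tot Y)) = (1 + α) ^ (2 * (u * k)) := by
  unfold EE
  have h : ∀ X Y : Fam u k, Wt α X * Wt α Y * (2 : ℝ) ^ (tot X + tot Y) =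
      (Wt α X * 2 ^ tot X) * (Wt α Y * 2 ^ tot Y) := by
    intro X Y
    rw [pow_add]
    ring
  simp only [h]
  rw [← Finset.sum_mul_sum, sum_Wt_two, ← pow_add]
  congr 1
  ring

/-- The total size is at most `N` with a probability near to `1`. -/
theorem tail (w b m M k N : ℕ) (hw : 1 ≤ w) (hb : 1 ≤ b) (hm : m = 4000 * w)
    (hM : M = 10000 * b * m) (hk : 1 ≤ k) (hN : k * M ≤ 2 * N) :
    EE (1 / (M : ℝ)) (fun X Y : Fam (M ^ 2 / 8) k => ind (N < tot X + tot Y)) ≤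
      1 / (2 * 10 ^ 6) := by
  have hM4 : 4 * 10 ^ 7 ≤ M := by
    rw [hM, hm]
    have h1 : 1 ≤ b * w := Nat.mul_pos hb hw
    have h2 : 10000 * b * (4000 * w) = 4 * 10 ^ 7 * (b * w) := by ring
    omega
  have hM0 : (4 * 10 ^ 7 : ℝ) ≤ (M : ℝ) := by exact_mod_cast hM4
  have hMpos : (0 : ℝ) < M := by linarith [hM0, show (0 : ℝ) < 4 * 10 ^ 7 by norm_num]
  have ha0 : (0 : ℝ) ≤ 1 / (M : ℝ) := by positivity
  have ha1 : 1 / (M : ℝ) ≤ 1 := by
    rw [div_le_one hMpos]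
    linarith [hM0, show (1 : ℝ) ≤ 4 * 10 ^ 7 by norm_num]
  have h1 : EE (1 / (M : ℝ)) (fun X Y : Fam (M ^ 2 / 8) k => ind (N < tot X + tot Y)) ≤
      EE (1 / (M : ℝ)) (fun X Y : Fam (M ^ 2 / 8) k => (1 / 2 ^ N) * 2 ^ (tot X + tot Y)) := by
    refine EE_mono ha0 ha1 fun X Y => ?_
    have hp : (0 : ℝ) < 2 ^ N := by positivity
    unfold ind
    split
    · rename_i h
      rw [one_div, inv_mul_eq_div, le_div_iff₀ hp, one_mul]
      exact pow_le_pow_right₀ (by norm_num) h.le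
    · positivity
  rw [EE_mul, EE_two] at h1
  refine h1.trans ?_
  have h2 : (1 + 1 / (M : ℝ)) ^ (2 * (M ^ 2 / 8 * k)) ≤ Real.exp ((k : ℝ) * M / 4) := by
    have h3 : 1 + 1 / (M : ℝ) ≤ Real.exp (1 / (M : ℝ)) := by
      have := Real.add_one_le_exp (1 / (M : ℝ))
      linarith
    calc (1 + 1 / (M : ℝ)) ^ (2 * (M ^ 2 / 8 * k)) ≤
        Real.exp (1 / (M : ℝ)) ^ (2 * (M ^ 2 / 8 * k)) :=
          pow_le_pow_left₀ (by positivity) h3 _
      _ = Real.exp (((2 * (M ^ 2 / 8 * k) : ℕ) : ℝ) * (1 / (M : ℝ))) := by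
          rw [← Real.exp_nat_mul]
      _ ≤ Real.exp ((k : ℝ) * M / 4) := by
          apply Real.exp_le_exp.2
          have h4 : M ^ 2 / 8 * 8 ≤ M ^ 2 := Nat.div_mul_le_self _ _
          have h5 : (((M ^ 2 / 8 : ℕ) : ℝ)) * 8 ≤ (M : ℝ) ^ 2 := by exact_mod_cast h4
          have h6 : (0 : ℝ) ≤ k := Nat.cast_nonneg k
          push_cast
          rw [mul_one_div, div_le_iff₀ hMpos]
          nlinarith
  have h7 : (2 : ℝ) ^ N = Real.exp ((N : ℝ) * Real.log 2) := by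
    rw [Real.exp_nat_mul, Real.exp_log (by norm_num)]
  have hk1 : (1 : ℝ) ≤ k := by exact_mod_cast hk
  have hN1 : (k : ℝ) * M ≤ 2 * N := by exact_mod_cast hN
  have hkM : (4 * 10 ^ 7 : ℝ) ≤ (k : ℝ) * M := by nlinarith
  have hlog : (0.69 : ℝ) ≤ Real.log 2 := by
    have := Real.log_two_gt_d9
    linarith
  have h8 : Real.exp ((k : ℝ) * M / 4) * Real.exp (0.095 * ((k : ℝ) * M)) ≤ (2 : ℝ) ^ N := by
    rw [h7, ← Real.exp_add]
    apply Real.exp_le_exp.2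
    have h9 : (N : ℝ) * 0.69 ≤ (N : ℝ) * Real.log 2 :=
      mul_le_mul_of_nonneg_left hlog (Nat.cast_nonneg N)
    linarith
  have h10 : (2 * 10 ^ 6 : ℝ) ≤ Real.exp (0.095 * ((k : ℝ) * M)) := by
    have := Real.add_one_le_exp (0.095 * ((k : ℝ) * M))
    linarith
  have hp : (0 : ℝ) < 2 ^ N := by positivity
  calc 1 / (2 : ℝ) ^ N * (1 + 1 / (M : ℝ)) ^ (2 * (M ^ 2 / 8 * k))
      ≤ 1 / (2 : ℝ) ^ N * Real.exp ((k : ℝ) * M / 4) :=
        mul_le_mul_of_nonneg_left h2 (by positivity)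
    _ ≤ 1 / (2 * 10 ^ 6) := by
        rw [one_div, inv_mul_eq_div, div_le_div_iff₀ hp (by norm_num), one_mul]
        calc Real.exp ((k : ℝ) * M / 4) * (2 * 10 ^ 6)
            ≤ Real.exp ((k : ℝ) * M / 4) * Real.exp (0.095 * ((k : ℝ) * M)) :=
              mul_le_mul_of_nonneg_left h10 (Real.exp_pos _).le
          _ ≤ 2 ^ N := h8

theorem EE_add (α : ℝ) {u k : ℕ} (f g : Fam u k → Fam u k → ℝ) :
    EE α (fun X Y => f X Y + g X Y) = EE α f + EE α g := by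
  unfold EE
  simp only [mul_add, Finset.sum_add_distrib]

/-- **Master theorem**, for families of total size at most `N`. -/
theorem master2 (core : CoreStm) (w b m M k s N : ℕ) (hw : 1 ≤ w) (hb : 1 ≤ b) (hm : m = 4000 * w)
    (hM : M = 10000 * b * m) (hN : k * M ≤ 2 * N) (Ω : Type) [Fintype Ω] (p : Ω → ℝ)
    (hp : ∀ ω, 0 ≤ p ω) (hp1 : ∑ ω, p ω = 1)
    (J : Ω → Fam (M ^ 2 / 8) k → Fam (M ^ 2 / 8) k → Fin s → Fin (2 ^ w))
    (addr : Ω → Fin k × Fin k → Fin s)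
    (query : Ω → Fin k × Fin k → Fin (2 ^ w) → Prot (Fam (M ^ 2 / 8) k) (Fam (M ^ 2 / 8) k))
    (hq : ∀ ω d v, (query ω d v).depth ≤ b)
    (h : ∀ X Y, tot X + tot Y ≤ N → ∀ d, 1 - 1 / (2 * 10 ^ 6) ≤
      ∑ ω, p ω * ind ((query ω d (J ω X Y (addr ω d))).run X Y = true ↔ ¬ Disj X Y d)) :
    k ^ 2 ≤ 2 * m * s := by
  rcases Nat.eq_zero_or_pos k with hk0 | hk0
  · rw [hk0]
    exact Nat.zero_le _
  have hM0 : (1 : ℝ) ≤ (M : ℝ) := by
    have h1 : 1 ≤ M := by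
      rw [hM, hm]
      exact Nat.mul_pos (Nat.mul_pos (by norm_num) hb) (Nat.mul_pos (by norm_num) hw)
    exact_mod_cast h1
  have ha0 : (0 : ℝ) ≤ 1 / (M : ℝ) := by positivity
  have ha1 : 1 / (M : ℝ) ≤ 1 := by
    rw [div_le_one (by linarith)]
    exact hM0
  have hw1 : ∀ X Y d, ∑ ω, p ω * ind (Wrong (J ω) (addr ω) (query ω) X Y d) ≤
      1 / (2 * 10 ^ 6) + ind (N < tot X + tot Y) := by
    intro X Y d
    have h1 : ∑ ω, p ω * ind ((query ω d (J ω X Y (addr ω d))).run X Y = true ↔ ¬ Disj X Y d) +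
        ∑ ω, p ω * ind (Wrong (J ω) (addr ω) (query ω) X Y d) = 1 := by
      rw [← Finset.sum_add_distrib, ← hp1]
      refine Finset.sum_congr rfl fun ω _ => ?_
      rw [← mul_add]
      unfold Wrong
      rw [ind_add_not, mul_one]
    by_cases hsz : tot X + tot Y ≤ N
    · have h2 := h X Y hsz d
      have h3 := ind_nonneg (N < tot X + tot Y)
      linarith
    · have h3 : ind (N < tot X + tot Y) = 1 := by
        unfold ind
        rw [if_pos (by omega)]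
      have h4 : 0 ≤ ∑ ω, p ω *
          ind ((query ω d (J ω X Y (addr ω d))).run X Y = true ↔ ¬ Disj X Y d) :=
        Finset.sum_nonneg fun ω _ => mul_nonneg (hp ω) (ind_nonneg _)
      rw [h3]
      have h5 : (0 : ℝ) ≤ 1 / (2 * 10 ^ 6) := by norm_num
      linarith
  have htail := tail w b m M k N hw hb hm hM hk0 hN
  have havg : ∑ ω, p ω * ∑ d, EE (1 / (M : ℝ)) (fun X Y =>
      ind (Wrong (J ω) (addr ω) (query ω) X Y d)) ≤ (k : ℝ) ^ 2 / 10 ^ 6 := by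
    calc ∑ ω, p ω * ∑ d, EE (1 / (M : ℝ)) (fun X Y =>
          ind (Wrong (J ω) (addr ω) (query ω) X Y d))
        = ∑ ω, ∑ d, EE (1 / (M : ℝ)) (fun X Y =>
          p ω * ind (Wrong (J ω) (addr ω) (query ω) X Y d)) := by
          refine Finset.sum_congr rfl fun ω _ => ?_
          rw [Finset.mul_sum]
          refine Finset.sum_congr rfl fun d _ => ?_
          rw [EE_mul]
      _ = ∑ d, ∑ ω, EE (1 / (M : ℝ)) (fun X Y =>
          p ω * ind (Wrong (J ω) (addr ω) (query ω) X Y d)) := Finset.sum_comm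
      _ = ∑ d : Fin k × Fin k, EE (1 / (M : ℝ)) (fun X Y =>
          ∑ ω, p ω * ind (Wrong (J ω) (addr ω) (query ω) X Y d)) := by
          refine Finset.sum_congr rfl fun d _ => ?_
          rw [EE_sum]
      _ ≤ ∑ d : Fin k × Fin k, EE (u := M ^ 2 / 8) (k := k) (1 / (M : ℝ))
          (fun X Y => 1 / (2 * 10 ^ 6) + ind (N < tot X + tot Y)) :=
          Finset.sum_le_sum fun d _ => EE_mono ha0 ha1 fun X Y => hw1 X Y d
      _ = ∑ d : Fin k × Fin k, (1 / (2 * 10 ^ 6) + EE (u := M ^ 2 / 8) (k := k) (1 / (M : ℝ))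
          (fun X Y => ind (N < tot X + tot Y))) := by
          refine Finset.sum_congr rfl fun d _ => ?_
          rw [EE_add, EE_const]
      _ ≤ ∑ d : Fin k × Fin k, (1 / (2 * 10 ^ 6) + 1 / (2 * 10 ^ 6)) :=
          Finset.sum_le_sum fun d _ => by linarith
      _ = (k : ℝ) ^ 2 / 10 ^ 6 := by
          simp
          ring
  obtain ⟨ω, hω⟩ : ∃ ω, ∑ d, EE (1 / (M : ℝ)) (fun X Y =>
      ind (Wrong (J ω) (addr ω) (query ω) X Y d)) ≤ (k : ℝ) ^ 2 / 10 ^ 6 := by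
    by_contra hne
    push Not at hne
    have h1 : ∀ ω, p ω * ((k : ℝ) ^ 2 / 10 ^ 6) ≤ p ω * ∑ d, EE (1 / (M : ℝ)) (fun X Y =>
        ind (Wrong (J ω) (addr ω) (query ω) X Y d)) := fun ω =>
      mul_le_mul_of_nonneg_left (hne ω).le (hp ω)
    obtain ⟨ω₀, _, hω₀⟩ : ∃ ω ∈ (univ : Finset Ω), 0 < p ω := by
      by_contra hno
      push Not at hno
      have : ∑ ω, p ω ≤ 0 := Finset.sum_nonpos hno
      linarith
    have h2 : ∑ ω, p ω * ((k : ℝ) ^ 2 / 10 ^ 6) < ∑ ω, p ω * ∑ d, EE (1 / (M : ℝ)) (fun X Y =>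
        ind (Wrong (J ω) (addr ω) (query ω) X Y d)) :=
      Finset.sum_lt_sum (fun ω _ => h1 ω)
        ⟨ω₀, Finset.mem_univ _, mul_lt_mul_of_pos_left (hne ω₀) hω₀⟩
    rw [← Finset.sum_mul, hp1, one_mul] at h2
    linarith
  exact core w b m M k s hw hb hm hM (J ω) (addr ω) (query ω) (hq ω) hω

theorem numer2 (w b m M k s N : ℕ) (hw : 1 ≤ w) (hm : m = 4000 * w) (hM : M = 10000 * b * m)
    (hN : 2 * N < (k + 1) * M) (hk : k ^ 2 ≤ 2 * m * s) (hs : 1 ≤ s) :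
    N ^ 2 ≤ 2 * 10 ^ 19 * b ^ 2 * w ^ 3 * s := by
  have hM2 : M ^ 2 = 16 * 10 ^ 14 * (b ^ 2 * w ^ 2) := by rw [hM, hm]; ring
  have h5 : b ^ 2 * w ^ 2 ≤ b ^ 2 * w ^ 3 * s := by
    calc b ^ 2 * w ^ 2 = b ^ 2 * w ^ 2 * 1 := by ring
      _ ≤ b ^ 2 * w ^ 2 * (w * s) := Nat.mul_le_mul_left _ (Nat.mul_pos hw hs)
      _ = b ^ 2 * w ^ 3 * s := by ring
  rcases Nat.eq_zero_or_pos k with h0 | h0
  · subst h0
    calc N ^ 2 ≤ M ^ 2 := Nat.pow_le_pow_left (by omega) 2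
      _ = 16 * 10 ^ 14 * (b ^ 2 * w ^ 2) := hM2
      _ ≤ 2 * 10 ^ 19 * (b ^ 2 * w ^ 3 * s) := Nat.mul_le_mul (by norm_num) h5
      _ = _ := by ring
  · have h1 : N ≤ k * M := by
      have h2 : (k + 1) * M ≤ (2 * k) * M := Nat.mul_le_mul_right _ (by omega)
      have h3 : (2 * k) * M = 2 * (k * M) := by ring
      omega
    calc N ^ 2 ≤ (k * M) ^ 2 := Nat.pow_le_pow_left h1 2
      _ = M ^ 2 * k ^ 2 := by ring
      _ ≤ M ^ 2 * (2 * m * s) := Nat.mul_le_mul_left _ hk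
      _ = 128 * 10 ^ 17 * (b ^ 2 * w ^ 3 * s) := by rw [hM2, hm]; ring
      _ ≤ 2 * 10 ^ 19 * (b ^ 2 * w ^ 3 * s) := Nat.mul_le_mul_right _ (by norm_num)
      _ = _ := by ring

end Pool.Agent.Y516.OJ
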