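import Pool.Agent.Y85.OJ.Ub

/-!
# Adaptive addresses: few errors have a small probability, on an event of one side
-/

set_option autoImplicit false

namespace Pool.Agent.Y516.OJ

open Finset
open Pool.Agent.Y85.OJ (FR FR_iff Hs prod_half sum_pow_card leaf_bound EE_nonneg ind_true ind_false)

/-- (UB2) Few errors on the pairs in `D` and the event `A` of the first side have a small
probability, for fixed protocols. -/
def UB2Stm : Prop := ∀ (u k m b r : ℕ) (α ρ : ℝ) (D : Finset (Fin k × Fin k))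
  (p : Fin k × Fin k → Prot (Fam u k) (Fam u k)) (A : Fam u k → Bool),
  0 < α → 10 * m * α ≤ 1 → 1 ≤ m → D.card = m → (∀ d, (p d).depth ≤ b) → 0 ≤ ρ → ρ ≤ 1 →
  (∀ n : ℕ, n ≤ m → (1 - α ^ 2 * n / 40) ^ u ≤ ρ ^ n) →
  ∃ P : (D → Fin (2 ^ b)) → ℝ, (∀ R, 0 ≤ P R) ∧
    ∑ R, P R ≤ EE α (fun X _ => ind (A X = true)) ∧
    EE α (fun X Y => ind (A X = true) * ind (nErr D p X Y ≤ r ∧ 2 * nInt D X Y ≤ m)) ≤
      2 ^ r * ((1 + ρ) / 2) ^ ((m : ℝ) / 2 - r) * ∑ R, P R ^ (1 / (1 + 2 * (m : ℝ) * α))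

theorem ub2 (hC : CorrStm) (hL : LeafStm) : UB2Stm := by
  classical
  intro u k m b r α ρ D p A hα hα1 hm hD hp hρ0 hρ1 hρ
  choose F G a hF using fun d => hL _ _ (p d) b (hp d)
  have hm' : (1 : ℝ) ≤ m := by exact_mod_cast hm
  have hα2 : α ≤ 1 := by nlinarith
  have nn : ∀ P : Prop, 0 ≤ ind P := Pool.Agent.Y85.OJ.ind_nonneg
  -- the probabilities of the leafs
  let P : (D → Fin (2 ^ b)) → ℝ := fun R =>
    EE α fun X Y => ind ((FR F D R X && A X) = true) * ind (FR G D R Y = true)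
  have hP0 : ∀ R, 0 ≤ P R := fun R => EE_nonneg hα.le hα2 fun X Y =>
    mul_nonneg (nn _) (nn _)
  -- the leaf of a pair
  have hex : ∀ X Y : Fam u k, ∃ R : D → Fin (2 ^ b), (FR F D R X = true ∧ FR G D R Y = true) ∧
      ∀ R', FR F D R' X = true → FR G D R' Y = true → R' = R := by
    intro X Y
    choose R hR hR' using fun d : D => (hF d X Y).1
    refine ⟨R, ⟨(FR_iff F R X).2 fun d => (hR d).1, (FR_iff G R Y).2 fun d => (hR d).2⟩, ?_⟩
    intro R' h1 h2
    funext d
    exact hR' d (R' d) ⟨(FR_iff F R' X).1 h1 d, (FR_iff G R' Y).1 h2 d⟩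
  have hPs : ∑ R, P R ≤ EE α (fun X _ => ind (A X = true)) := by
    have h1 := Pool.Agent.Y85.OJ.EE_sum (univ : Finset (D → Fin (2 ^ b))) α (fun _ => 1)
      fun R X Y => ind ((FR F D R X && A X) = true) * ind (FR G D R Y = true)
    have h2 : ∑ R, P R = EE α fun X Y => ∑ R : D → Fin (2 ^ b),
        1 * (ind ((FR F D R X && A X) = true) * ind (FR G D R Y = true)) := by
      rw [h1]
      exact sum_congr rfl fun R _ => (one_mul _).symm
    rw [h2]
    refine Pool.Agent.Y85.OJ.EE_mono hα.le hα2 fun X Y => ?_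
    obtain ⟨R, ⟨hR1, hR2⟩, hR3⟩ := hex X Y
    rw [sum_eq_single R]
    · rw [ind_true hR2, hR1, Bool.true_and, mul_one, one_mul]
    · intro R' _ hne
      by_cases h3 : FR F D R' X = true
      · by_cases h4 : FR G D R' Y = true
        · exact absurd (hR3 R' h3 h4) hne
        · rw [ind_false h4, mul_zero, mul_zero]
      · have h5 : ¬ ((FR F D R' X && A X) = true) := by
          intro h6
          rw [Bool.and_eq_true] at h6
          exact h3 h6.1
        rw [ind_false h5, zero_mul, mul_zero]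
    · intro h
      exact absurd (mem_univ _) h
  -- the bound at the points
  let cc : (D → Fin (2 ^ b)) → ℝ := fun R =>
    if m ≤ 2 * (Hs a D R).card + 2 * r then 2 ^ r else 0
  have hcc : ∀ R, 0 ≤ cc R := by
    intro R
    show (0 : ℝ) ≤ if m ≤ 2 * (Hs a D R).card + 2 * r then 2 ^ r else 0
    split_ifs <;> positivity
  have hprod : ∀ (R : D → Fin (2 ^ b)) (X Y : Fam u k),
      0 ≤ ∏ d ∈ Hs a D R, (1 / 2 + ind (Disj X Y d) / 2) := fun R X Y =>
    prod_nonneg fun d _ => by have := nn (Disj X Y d); linarith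
  have hpt : ∀ X Y : Fam u k, ind (A X = true) * ind (nErr D p X Y ≤ r ∧ 2 * nInt D X Y ≤ m) ≤
      ∑ R : D → Fin (2 ^ b), cc R * (ind ((FR F D R X && A X) = true) *
        ind (FR G D R Y = true) * ∏ d ∈ Hs a D R, (1 / 2 + ind (Disj X Y d) / 2)) := by
    intro X Y
    have hnn : ∀ R ∈ (univ : Finset (D → Fin (2 ^ b))), 0 ≤ cc R *
        (ind ((FR F D R X && A X) = true) * ind (FR G D R Y = true) *
        ∏ d ∈ Hs a D R, (1 / 2 + ind (Disj X Y d) / 2)) := fun R _ =>
      mul_nonneg (hcc R) (mul_nonneg (mul_nonneg (nn _) (nn _)) (hprod R X Y))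
    by_cases hA : A X = true
    · by_cases hev : nErr D p X Y ≤ r ∧ 2 * nInt D X Y ≤ m
      · obtain ⟨R, ⟨hR1, hR2⟩, -⟩ := hex X Y
        have h3 := leaf_bound (p := p) a hD X Y R (fun d => (hF d X Y).2 (R d)
          ((FR_iff F R X).1 hR1 d) ((FR_iff G R Y).1 hR2 d)) hev.1 hev.2
        refine le_trans ?_ (single_le_sum hnn (mem_univ R))
        have h5 : (FR F D R X && A X) = true := by rw [hR1, hA]; rfl
        rw [ind_true hev, ind_true hA, ind_true h5, ind_true hR2, one_mul, one_mul]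
        have h4 : cc R = 2 ^ r := if_pos h3.1
        rw [h4]
        exact h3.2
      · rw [ind_false hev, mul_zero]
        exact sum_nonneg hnn
    · rw [ind_false hA, zero_mul]
      exact sum_nonneg hnn
  -- the contribution of a leaf
  have hleaf : ∀ R : D → Fin (2 ^ b), EE α (fun X Y => ind ((FR F D R X && A X) = true) *
      ind (FR G D R Y = true) * ∏ d ∈ Hs a D R, (1 / 2 + ind (Disj X Y d) / 2)) ≤
      ((1 + ρ) / 2) ^ (Hs a D R).card * P R ^ (1 / (1 + 2 * (m : ℝ) * α)) := by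
    intro R
    have h1 : (fun X Y : Fam u k => ind ((FR F D R X && A X) = true) *
        ind (FR G D R Y = true) * ∏ d ∈ Hs a D R, (1 / 2 + ind (Disj X Y d) / 2)) =
        fun X Y => ∑ S ∈ (Hs a D R).powerset, (1 / 2 : ℝ) ^ (Hs a D R).card *
          (ind ((FR F D R X && A X) = true) * ind (FR G D R Y = true) *
            ind (∀ d ∈ S.map (Function.Embedding.subtype _), Disj X Y d)) := by
      funext X Y
      rw [prod_half, mul_sum]
      refine sum_congr rfl fun S _ => ?_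
      have h2 : (∀ d ∈ S.map (Function.Embedding.subtype _), Disj X Y d) =
          (∀ d ∈ S, Disj X Y (d : Fin k × Fin k)) := by
        apply propext
        constructor
        · intro h d hd
          exact h _ (mem_map_of_mem _ hd)
        · intro h d hd
          obtain ⟨d', hd', rfl⟩ := mem_map.1 hd
          exact h d' hd'
      rw [h2]
      ring
    rw [h1, Pool.Agent.Y85.OJ.EE_sum]
    have h3 : ∀ S ∈ (Hs a D R).powerset, (1 / 2 : ℝ) ^ (Hs a D R).card *
        EE α (fun X Y => ind ((FR F D R X && A X) = true) * ind (FR G D R Y = true) *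
            ind (∀ d ∈ S.map (Function.Embedding.subtype _), Disj X Y d)) ≤
        (1 / 2 : ℝ) ^ (Hs a D R).card * (ρ ^ S.card * P R ^ (1 / (1 + 2 * (m : ℝ) * α))) := by
      intro S _
      refine mul_le_mul_of_nonneg_left ?_ (by positivity)
      have hS : (S.map (Function.Embedding.subtype _)).card ≤ m := by
        rw [card_map, ← hD, ← Fintype.card_coe D]
        exact card_le_univ S
      have h4 := hC u k m α (S.map (Function.Embedding.subtype _))
        (fun X => FR F D R X && A X) (FR G D R) hα hα1 hm hS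
      refine h4.trans (mul_le_mul_of_nonneg_right ?_ (Real.rpow_nonneg (hP0 R) _))
      have h5 := hρ _ hS
      rw [card_map] at h5 ⊢
      exact h5
    refine (sum_le_sum h3).trans (le_of_eq ?_)
    rw [← mul_sum, ← sum_mul, sum_pow_card, ← mul_assoc, ← mul_pow]
    congr 2
    ring
  -- summation
  have hbase0 : 0 < (1 + ρ) / 2 := by linarith
  have hbase1 : (1 + ρ) / 2 ≤ 1 := by linarith
  have hR : ∀ R : D → Fin (2 ^ b), cc R * EE α (fun X Y => ind ((FR F D R X && A X) = true) *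
      ind (FR G D R Y = true) * ∏ d ∈ Hs a D R, (1 / 2 + ind (Disj X Y d) / 2)) ≤
      2 ^ r * ((1 + ρ) / 2) ^ ((m : ℝ) / 2 - r) * P R ^ (1 / (1 + 2 * (m : ℝ) * α)) := by
    intro R
    have hPR : 0 ≤ P R ^ (1 / (1 + 2 * (m : ℝ) * α)) := Real.rpow_nonneg (hP0 R) _
    by_cases hc : m ≤ 2 * (Hs a D R).card + 2 * r
    · have h4 : cc R = 2 ^ r := if_pos hc
      rw [h4, mul_assoc]
      refine mul_le_mul_of_nonneg_left ((hleaf R).trans ?_) (by positivity)
      refine mul_le_mul_of_nonneg_right ?_ hPR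
      rw [← Real.rpow_natCast]
      refine Real.rpow_le_rpow_of_exponent_ge hbase0 hbase1 ?_
      have h5 : (m : ℝ) ≤ 2 * (Hs a D R).card + 2 * r := by exact_mod_cast hc
      linarith
    · have h4 : cc R = 0 := if_neg hc
      rw [h4, zero_mul]
      exact mul_nonneg (mul_nonneg (by positivity) (Real.rpow_nonneg hbase0.le _)) hPR
  refine ⟨P, hP0, hPs, ?_⟩
  calc EE α (fun X Y => ind (A X = true) * ind (nErr D p X Y ≤ r ∧ 2 * nInt D X Y ≤ m))
      ≤ EE α (fun X Y => ∑ R : D → Fin (2 ^ b), cc R * (ind ((FR F D R X && A X) = true) *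
          ind (FR G D R Y = true) * ∏ d ∈ Hs a D R, (1 / 2 + ind (Disj X Y d) / 2))) :=
        Pool.Agent.Y85.OJ.EE_mono hα.le hα2 hpt
    _ = ∑ R : D → Fin (2 ^ b), cc R * EE α (fun X Y => ind ((FR F D R X && A X) = true) *
          ind (FR G D R Y = true) * ∏ d ∈ Hs a D R, (1 / 2 + ind (Disj X Y d) / 2)) :=
        Pool.Agent.Y85.OJ.EE_sum _ α cc _
    _ ≤ ∑ R : D → Fin (2 ^ b), 2 ^ r * ((1 + ρ) / 2) ^ ((m : ℝ) / 2 - r) *
          P R ^ (1 / (1 + 2 * (m : ℝ) * α)) := sum_le_sum fun R _ => hR R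
    _ = 2 ^ r * ((1 + ρ) / 2) ^ ((m : ℝ) / 2 - r) *
          ∑ R : D → Fin (2 ^ b), P R ^ (1 / (1 + 2 * (m : ℝ) * α)) := by rw [mul_sum]

end Pool.Agent.Y516.OJ
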